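import Pool.Agent.Helper49.PS.Lower

namespace Pool.Agent.Helper49.PS

open SimpleGraph Finset
open scoped Classical

/-- parameters of the extremal trees: `N` hubs at distance `g` on a long path, every hub has `D`
further neighbours, and the first `M` of them have `L` further neighbours. -/
structure Par where
  N : ℕ
  g : ℕ
  D : ℕ
  M : ℕ
  L : ℕ
  hN : 0 < N
  hg : 0 < g
  hMD : M ≤ D

/-- the vertices -/
abbrev VV (P : Par) : Type :=
  (Fin P.N × Fin P.g) ⊕ ((Fin P.N × Fin P.D) ⊕ (Fin P.N × (Fin P.M × Fin P.L)))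

variable (P : Par)

/-- the parent -/
def par : VV P → VV P
  | Sum.inl (j, i) => if i.1 = 0 then
      Sum.inl (⟨j.1 - 1, by have := j.2; omega⟩, ⟨P.g - 1, by have := P.hg; omega⟩)
      else Sum.inl (j, ⟨i.1 - 1, by have := i.2; omega⟩)
  | Sum.inr (Sum.inl (j, _)) => Sum.inl (j, ⟨0, P.hg⟩)
  | Sum.inr (Sum.inr (j, a, _)) => Sum.inr (Sum.inl (j, Fin.castLE P.hMD a))

/-- the position -/
def ss : VV P → ℕ
  | Sum.inl (j, i) => j.1 * P.g + i.1
  | Sum.inr (Sum.inl (j, _)) => j.1 * P.g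
  | Sum.inr (Sum.inr (j, _, _)) => j.1 * P.g

/-- the height -/
def ht : VV P → ℕ
  | Sum.inl _ => 0
  | Sum.inr (Sum.inl _) => 1
  | Sum.inr (Sum.inr _) => 2

/-- the root -/
def rt : VV P := Sum.inl (⟨0, P.hN⟩, ⟨0, P.hg⟩)

lemma par_rk (x : VV P) (hx : x ≠ rt P) :
    3 * ss P (par P x) + ht P (par P x) < 3 * ss P x + ht P x ∧
    ss P (par P x) ≤ ss P x ∧ ss P x ≤ ss P (par P x) + 1 := by
  rcases x with ⟨j, i⟩ | ⟨j, a⟩ | ⟨j, a, b⟩
  · by_cases hi : i.1 = 0
    · have hj : j.1 ≠ 0 := by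
        intro h
        apply hx
        unfold rt
        congr 1
        exact Prod.ext (Fin.ext h) (Fin.ext hi)
      obtain ⟨j', hj'⟩ : ∃ j', j.1 = j' + 1 := ⟨j.1 - 1, by omega⟩
      have hg := P.hg
      simp only [par, hi, if_true, ss, ht, hj', Nat.add_sub_cancel]
      have e : (j' + 1) * P.g = j' * P.g + P.g := by ring
      rw [e]
      omega
    · simp only [par, hi, if_false, ss, ht]
      omega
  · simp only [par, ss, ht]
    omega
  · simp only [par, ss, ht]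
    omega

/-- the tree -/
def TT : SimpleGraph (VV P) where
  Adj x y := (x ≠ rt P ∧ par P x = y) ∨ (y ≠ rt P ∧ par P y = x)
  symm := ⟨fun x y h => h.symm⟩
  loopless := ⟨fun x h => by
    rcases h with ⟨h1, h2⟩ | ⟨h1, h2⟩
    · have := (par_rk P x h1).1
      rw [h2] at this
      omega
    · have := (par_rk P x h1).1
      rw [h2] at this
      omega⟩

lemma TT_tree : (TT P).IsTree :=
  isTree_of_parent (TT P) (rt P) (par P) (fun x => 3 * ss P x + ht P x)
    (fun x hx => (par_rk P x hx).1) (fun _ _ => Iff.rfl)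

lemma adj_ss {x y : VV P} (h : (TT P).Adj x y) : ss P x ≤ ss P y + 1 := by
  rcases h with ⟨h1, h2⟩ | ⟨h1, h2⟩
  · have := (par_rk P x h1).2.2
    rw [h2] at this
    exact this
  · have := (par_rk P y h1).2.1
    rw [h2] at this
    omega

lemma dist_ss (x y : VV P) : ss P x ≤ ss P y + (TT P).dist x y := by
  obtain ⟨p, hp, hpl⟩ := ((TT_tree P).connected x y).exists_path_of_dist
  rw [← hpl]
  clear hp hpl
  induction p with
  | nil => simp
  | cons h p ih =>
    have := adj_ss P h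
    rw [Walk.length_cons]
    omega

/-- the hub -/
def hb : VV P → VV P
  | Sum.inl x => Sum.inl x
  | Sum.inr (Sum.inl (j, _)) => Sum.inl (j, ⟨0, P.hg⟩)
  | Sum.inr (Sum.inr (j, _, _)) => Sum.inl (j, ⟨0, P.hg⟩)

lemma adj_ch (j : Fin P.N) (a : Fin P.D) :
    (TT P).Adj (Sum.inr (Sum.inl (j, a))) (Sum.inl (j, ⟨0, P.hg⟩)) :=
  Or.inl ⟨by simp [rt], rfl⟩

lemma adj_gc (j : Fin P.N) (a : Fin P.M) (b : Fin P.L) :
    (TT P).Adj (Sum.inr (Sum.inr (j, a, b))) (Sum.inr (Sum.inl (j, Fin.castLE P.hMD a))) :=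
  Or.inl ⟨by simp [rt], rfl⟩

lemma dist_hb (x : VV P) : (TT P).dist x (hb P x) ≤ ht P x := by
  rcases x with ⟨j, i⟩ | ⟨j, a⟩ | ⟨j, a, b⟩
  · simp [hb, ht]
  · simp only [hb, ht]
    exact (SimpleGraph.dist_eq_one_iff_adj.2 (adj_ch P j a)).le
  · simp only [hb, ht]
    have h1 := (TT_tree P).connected.dist_triangle (u := Sum.inr (Sum.inr (j, a, b)))
      (v := Sum.inr (Sum.inl (j, Fin.castLE P.hMD a))) (w := Sum.inl (j, ⟨0, P.hg⟩))
    rw [SimpleGraph.dist_eq_one_iff_adj.2 (adj_ch P j _),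
      SimpleGraph.dist_eq_one_iff_adj.2 (adj_gc P j a b)] at h1
    exact h1

lemma ss_hb (x : VV P) : ss P (hb P x) = ss P x := by
  rcases x with ⟨j, i⟩ | ⟨j, a⟩ | ⟨j, a, b⟩ <;> simp [hb, ss]

lemma ss_inj {p q : Fin P.N × Fin P.g} (h : ss P (Sum.inl p) = ss P (Sum.inl q)) : p = q := by
  obtain ⟨j, i⟩ := p
  obtain ⟨j', i'⟩ := q
  simp only [ss] at h
  have hi := i.2
  have hi' := i'.2
  have hg := P.hg
  have h1 : j.1 = j'.1 := by
    have e1 : (j.1 * P.g + i.1) / P.g = j.1 := by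
      rw [Nat.add_div_of_dvd_right (Dvd.intro_left _ rfl), Nat.mul_div_cancel _ hg,
        Nat.div_eq_of_lt hi, add_zero]
    have e2 : (j'.1 * P.g + i'.1) / P.g = j'.1 := by
      rw [Nat.add_div_of_dvd_right (Dvd.intro_left _ rfl), Nat.mul_div_cancel _ hg,
        Nat.div_eq_of_lt hi', add_zero]
    rw [← e1, ← e2, h]
  have h2 : i.1 = i'.1 := by rw [h1] at h; omega
  exact Prod.ext (Fin.ext h1) (Fin.ext h2)

lemma hb_eq {x y : VV P} (h : ss P x = ss P y) : hb P x = hb P y := by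
  have h1 : ∃ p, hb P x = Sum.inl p := by
    rcases x with ⟨j, i⟩ | ⟨j, a⟩ | ⟨j, a, b⟩ <;> exact ⟨_, rfl⟩
  have h2 : ∃ p, hb P y = Sum.inl p := by
    rcases y with ⟨j, i⟩ | ⟨j, a⟩ | ⟨j, a, b⟩ <;> exact ⟨_, rfl⟩
  obtain ⟨p, hp⟩ := h1
  obtain ⟨q, hq⟩ := h2
  rw [hp, hq]
  congr 1
  apply ss_inj P
  rw [← hp, ← hq, ss_hb, ss_hb, h]

lemma dist_same {x y : VV P} (h : ss P x = ss P y) :
    (TT P).dist x y ≤ ht P x + ht P y := by
  have h1 := (TT_tree P).connected.dist_triangle (u := x) (v := hb P x) (w := y)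
  have h2 := dist_hb P x
  have h3 := dist_hb P y
  rw [← hb_eq P h, SimpleGraph.dist_comm] at h3
  omega

/-- no long path inside a cluster -/
def Good (k : ℕ) : Prop := 6 ≤ k ∨ (k = 5 ∧ P.M = 1) ∨ (k = 4 ∧ P.M = 0)

lemma ht_le (x : VV P) : ht P x ≤ 2 := by
  rcases x with ⟨j, i⟩ | ⟨j, a⟩ | ⟨j, a, b⟩ <;> simp [ht]

lemma dist_good {k : ℕ} (hk : Good P k) {x y : VV P} (h : ss P x = ss P y) :
    (TT P).dist x y + 1 < k := by
  have h1 := dist_same P h
  have h2 := ht_le P x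
  have h3 := ht_le P y
  rcases hk with hk | ⟨hk, hM⟩ | ⟨hk, hM⟩
  · omega
  · by_cases h4 : ht P x = 2 ∧ ht P y = 2
    · rcases x with ⟨j, i⟩ | ⟨j, a⟩ | ⟨j, a, b⟩
      · simp [ht] at h4
      · simp [ht] at h4
      rcases y with ⟨j', i'⟩ | ⟨j', a'⟩ | ⟨j', a', b'⟩
      · simp [ht] at h4
      · simp [ht] at h4
      have hj : j = j' := by
        simp only [ss] at h
        exact Fin.ext (Nat.eq_of_mul_eq_mul_right P.hg h)
      have ha : a = a' := by
        apply Fin.ext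
        have := a.2
        have := a'.2
        omega
      subst hj ha
      have h5 := (TT_tree P).connected.dist_triangle (u := Sum.inr (Sum.inr (j, a, b)))
        (v := Sum.inr (Sum.inl (j, Fin.castLE P.hMD a))) (w := Sum.inr (Sum.inr (j, a, b')))
      rw [SimpleGraph.dist_eq_one_iff_adj.2 (adj_gc P j a b),
        SimpleGraph.dist_eq_one_iff_adj.2 (adj_gc P j a b').symm] at h5
      omega
    · omega
  · have hx : ht P x ≤ 1 := by
      rcases x with ⟨j, i⟩ | ⟨j, a⟩ | ⟨j, a, b⟩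
      · simp [ht]
      · simp [ht]
      · exact absurd a.2 (by omega)
    have hy : ht P y ≤ 1 := by
      rcases y with ⟨j, i⟩ | ⟨j, a⟩ | ⟨j, a, b⟩
      · simp [ht]
      · simp [ht]
      · exact absurd a.2 (by omega)
    omega

end Pool.Agent.Helper49.PS
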