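import Pool.Agent.Helper49.PS.Defs

namespace Pool.Agent.Helper49.PS

open SimpleGraph Finset
open scoped Classical

variable {V : Type} [Fintype V] (G : SimpleGraph V)

/-- degree -/
noncomputable def dg (v : V) : ℕ := (univ.filter (fun u => G.Adj v u)).card

lemma ext_count (k D : ℕ) : ∀ (m : ℕ) (A : Finset V), A.Nonempty → A.card + m = k →
    ((univ : Finset (Finset V)).filter (fun U => A ⊆ U ∧ U.card = k ∧
      (G.induce (U : Set V)).Connected ∧ ∀ x ∈ U, dg G x ≤ D)).card ≤ (k * D) ^ m := by
  intro m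
  induction m with
  | zero =>
    intro A hA hk
    rw [pow_zero, Finset.card_le_one]
    intro U hU W hW
    rw [mem_filter] at hU hW
    have h1 := Finset.eq_of_subset_of_card_le hU.2.1 (by omega)
    have h2 := Finset.eq_of_subset_of_card_le hW.2.1 (by omega)
    rw [← h1, ← h2]
  | succ m ih =>
    intro A hA hk
    by_cases hdeg : ∀ a ∈ A, dg G a ≤ D
    · have hsub : ((univ : Finset (Finset V)).filter (fun U => A ⊆ U ∧ U.card = k ∧
          (G.induce (U : Set V)).Connected ∧ ∀ x ∈ U, dg G x ≤ D)) ⊆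
          (univ.filter (fun x => x ∉ A ∧ ∃ a ∈ A, G.Adj a x)).biUnion
            (fun x => (univ : Finset (Finset V)).filter (fun U => insert x A ⊆ U ∧ U.card = k ∧
          (G.induce (U : Set V)).Connected ∧ ∀ x ∈ U, dg G x ≤ D)) := by
        intro U hU
        rw [mem_filter] at hU
        obtain ⟨-, hAU, hcard, hconn, hd⟩ := hU
        obtain ⟨a, ha⟩ := hA
        have hne : ∃ b ∈ U, b ∉ A := by
          by_contra hcon
          push Not at hcon
          have := Finset.card_le_card (show U ⊆ A from hcon)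
          omega
        obtain ⟨b, hbU, hbA⟩ := hne
        obtain ⟨p⟩ := hconn.preconnected ⟨a, hAU ha⟩ ⟨b, hbU⟩
        obtain ⟨d, -, hd1, hd2⟩ := p.exists_boundary_dart {z | z.1 ∈ A} ha hbA
        have hadj : G.Adj d.fst.1 d.snd.1 := d.adj
        rw [mem_biUnion]
        refine ⟨d.snd.1, ?_, ?_⟩
        · rw [mem_filter]
          exact ⟨mem_univ _, hd2, d.fst.1, hd1, hadj⟩
        · rw [mem_filter]
          refine ⟨mem_univ _, ?_, hcard, hconn, hd⟩
          intro z hz
          rw [mem_insert] at hz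
          rcases hz with rfl | hz
          · exact d.snd.2
          · exact hAU hz
      have hnb : (univ.filter (fun x => x ∉ A ∧ ∃ a ∈ A, G.Adj a x)).card ≤ k * D := by
        have : (univ.filter (fun x => x ∉ A ∧ ∃ a ∈ A, G.Adj a x)) ⊆
            A.biUnion (fun a => univ.filter (fun x => G.Adj a x)) := by
          intro x hx
          rw [mem_filter] at hx
          obtain ⟨-, -, a, ha, hax⟩ := hx
          rw [mem_biUnion]
          exact ⟨a, ha, by rw [mem_filter]; exact ⟨mem_univ _, hax⟩⟩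
        calc _ ≤ _ := Finset.card_le_card this
          _ ≤ A.card * D := Finset.card_biUnion_le_card_mul _ _ _ (fun a ha => hdeg a ha)
          _ ≤ k * D := Nat.mul_le_mul_right _ (by omega)
      calc _ ≤ _ := Finset.card_le_card hsub
        _ ≤ (univ.filter (fun x => x ∉ A ∧ ∃ a ∈ A, G.Adj a x)).card * (k * D) ^ m := by
            refine Finset.card_biUnion_le_card_mul _ _ _ ?_
            intro x hx
            rw [mem_filter] at hx
            refine ih (insert x A) (by simp) ?_
            rw [Finset.card_insert_of_notMem hx.2.1]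
            omega
        _ ≤ (k * D) * (k * D) ^ m := Nat.mul_le_mul_right _ hnb
        _ = (k * D) ^ (m + 1) := by ring
    · push Not at hdeg
      obtain ⟨a, ha, hlt⟩ := hdeg
      rw [Finset.filter_eq_empty_iff.2]
      · simp
      · intro U _ hU
        have := hU.2.2.2 a (hU.1 ha)
        omega

/-- `U` induces a star (in a graph without triangles) -/
def IsStarSet (U : Finset V) : Prop := ∃ v ∈ U, ∀ x ∈ U, x ≠ v → G.Adj v x

/-- the non-star subtrees -/
noncomputable def nonstars (k : ℕ) : Finset (Finset V) :=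
  univ.filter (fun U => U.card = k ∧ (G.induce (U : Set V)).Connected ∧ ¬ IsStarSet G U)

lemma nonstars_le' (k : ℕ) (hk : 3 ≤ k) :
    (nonstars G k).card ≤ ∑ v : V, ∑ u ∈ univ.filter (fun u => G.Adj v u ∧ dg G u ≤ dg G v),
      (dg G u - 1) * (k * dg G v) ^ (k - 3) := by
  have hsub : nonstars G k ⊆ (univ : Finset V).biUnion (fun v =>
      (univ.filter (fun u => G.Adj v u ∧ dg G u ≤ dg G v)).biUnion (fun u =>
        (univ.filter (fun w => G.Adj u w ∧ w ≠ v)).biUnion (fun w =>
          (univ : Finset (Finset V)).filter (fun U => ({v, u, w} : Finset V) ⊆ U ∧ U.card = k ∧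
      (G.induce (U : Set V)).Connected ∧ ∀ x ∈ U, dg G x ≤ dg G v)))) := by
    intro U hU
    rw [nonstars, mem_filter] at hU
    obtain ⟨-, hcard, hconn, hns⟩ := hU
    have hUne : U.Nonempty := by
      rw [← Finset.card_pos]; omega
    obtain ⟨v, hvU, hmax⟩ := Finset.exists_max_image U (dg G) hUne
    have hw : ∃ w ∈ U, w ≠ v ∧ ¬ G.Adj v w := by
      by_contra hcon
      push Not at hcon
      exact hns ⟨v, hvU, fun x hx hxv => hcon x hx hxv⟩
    obtain ⟨w, hwU, hwv, hnadj⟩ := hw
    obtain ⟨p⟩ := hconn.preconnected ⟨v, hvU⟩ ⟨w, hwU⟩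
    obtain ⟨d, -, hd1, hd2⟩ := p.exists_boundary_dart {z | z.1 = v ∨ G.Adj v z.1} (Or.inl rfl)
      (by rintro (h | h); exacts [hwv h, hnadj h])
    have hadj : G.Adj d.fst.1 d.snd.1 := d.adj
    have hd2' : ¬ (d.snd.1 = v ∨ G.Adj v d.snd.1) := hd2
    push Not at hd2'
    have hvu : G.Adj v d.fst.1 := by
      rcases hd1 with h | h
      · rw [h] at hadj; exact absurd hadj hd2'.2
      · exact h
    rw [mem_biUnion]
    refine ⟨v, mem_univ _, ?_⟩
    rw [mem_biUnion]
    refine ⟨d.fst.1, ?_, ?_⟩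
    · rw [mem_filter]; exact ⟨mem_univ _, hvu, hmax _ d.fst.2⟩
    rw [mem_biUnion]
    refine ⟨d.snd.1, ?_, ?_⟩
    · rw [mem_filter]; exact ⟨mem_univ _, hadj, hd2'.1⟩
    rw [mem_filter]
    refine ⟨mem_univ _, ?_, hcard, hconn, hmax⟩
    intro z hz
    simp only [mem_insert, mem_singleton] at hz
    rcases hz with rfl | rfl | rfl
    · exact hvU
    · exact d.fst.2
    · exact d.snd.2
  refine (Finset.card_le_card hsub).trans ?_
  refine Finset.card_biUnion_le.trans ?_
  refine Finset.sum_le_sum ?_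
  intro v _
  refine Finset.card_biUnion_le.trans ?_
  refine Finset.sum_le_sum ?_
  intro u hu
  rw [mem_filter] at hu
  have h1 : (univ.filter (fun w => G.Adj u w ∧ w ≠ v)).card ≤ dg G u - 1 := by
    have h2 : (univ.filter (fun w => G.Adj u w ∧ w ≠ v)) =
        (univ.filter (fun w => G.Adj u w)).erase v := by
      ext w
      simp only [mem_filter, mem_univ, true_and, mem_erase]
      tauto
    rw [h2, Finset.card_erase_of_mem (by rw [mem_filter]; exact ⟨mem_univ _, hu.2.1.symm⟩), dg]
  refine (Finset.card_biUnion_le_card_mul _ _ ((k * dg G v) ^ (k - 3)) ?_).trans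
    (Nat.mul_le_mul_right _ h1)
  intro w hw
  rw [mem_filter] at hw
  refine ext_count G k (dg G v) (k - 3) {v, u, w} (by simp) ?_
  have : ({v, u, w} : Finset V).card = 3 := by
    rw [Finset.card_eq_three]
    exact ⟨v, u, w, hu.2.1.ne, hw.2.2.symm, hw.2.1.ne, rfl⟩
  omega

lemma nonstars_le (k : ℕ) (hk : 3 ≤ k) :
    (nonstars G k).card ≤ ∑ v : V, ∑ u ∈ univ.filter (fun u => G.Adj v u ∧ dg G u ≤ dg G v),
      dg G u * (k * dg G v) ^ (k - 3) :=
  (nonstars_le' G k hk).trans (Finset.sum_le_sum fun _ _ => Finset.sum_le_sum fun _ _ =>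
    Nat.mul_le_mul_right _ (Nat.sub_le _ _))

end Pool.Agent.Helper49.PS
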