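import Mathlib

namespace Pool.Agent.Helper49.PS

open SimpleGraph Filter Topology

/-- `copies T H` is the number of vertex sets `U` of `T` such that the induced subgraph `T[U]` is
isomorphic to `H` (for a tree `T` and a tree `H` on `k` vertices: the number of copies of `H`
in `T`). -/
noncomputable def copies {V : Type} {k : ℕ} (T : SimpleGraph V) (H : SimpleGraph (Fin k)) : ℕ :=
  Nat.card {U : Finset V // Nonempty (T.induce (U : Set V) ≃g H)}

/-- `subtrees T k` is `Z_k(T)`, the number of `k`-vertex subtrees of the tree `T`, that is the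
number of `k`-element vertex sets which induce a connected subgraph. -/
noncomputable def subtrees {V : Type} (T : SimpleGraph V) (k : ℕ) : ℕ :=
  Nat.card {U : Finset V // U.card = k ∧ (T.induce (U : Set V)).Connected}

/-- The trees with vertex set `Fin k` (every isomorphism type of trees on `k` vertices occurs). -/
abbrev TreeOn (k : ℕ) : Type := {H : SimpleGraph (Fin k) // H.IsTree}

/-- The `k`-profile of `T`: the coordinate at the tree `H` is the proportion of the copies of `H`
among the `k`-vertex subtrees of `T`. -/
noncomputable def profile {V : Type} (k : ℕ) (T : SimpleGraph V) : TreeOn k → ℝ :=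
  fun H => (copies T H.1 : ℝ) / (subtrees T k : ℝ)

/-- The limit set of the `k`-profiles of finite trees whose number of vertices tends to
infinity. -/
def limitSet (k : ℕ) : Set (TreeOn k → ℝ) :=
  {p | ∃ (V : ℕ → Type) (_ : ∀ i, Fintype (V i)) (T : ∀ i, SimpleGraph (V i)),
      (∀ i, (T i).IsTree) ∧ Tendsto (fun i => Fintype.card (V i)) atTop atTop ∧
        Tendsto (fun i => profile k (T i)) atTop (𝓝 p)}

/-- A graph given by a parent function with decreasing rank is a tree. -/
lemma isTree_of_parent {V : Type} [Finite V] (G : SimpleGraph V) (r : V) (par : V → V)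
    (rk : V → ℕ) (hrk : ∀ x, x ≠ r → rk (par x) < rk x)
    (hadj : ∀ x y, G.Adj x y ↔ (x ≠ r ∧ par x = y) ∨ (y ≠ r ∧ par y = x)) : G.IsTree := by
  classical
  have hreach : ∀ m x, rk x ≤ m → G.Reachable x r := by
    intro m
    induction m with
    | zero =>
      intro x hx
      by_cases h : x = r
      · subst h; exact Reachable.refl _
      · have := hrk x h; omega
    | succ m ih =>
      intro x hx
      by_cases h : x = r
      · subst h; exact Reachable.refl _
      · have h1 := hrk x h
        have h2 : G.Adj x (par x) := (hadj _ _).2 (Or.inl ⟨h, rfl⟩)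
        exact h2.reachable.trans (ih _ (by omega))
  have hconn : G.Connected := by
    have : Nonempty V := ⟨r⟩
    refine ⟨?_⟩
    intro x y
    exact (hreach _ x le_rfl).trans (hreach _ y le_rfl).symm
  rw [isTree_iff_connected_and_card]
  refine ⟨hconn, ?_⟩
  have h1 := hconn.card_vert_le_card_edgeSet_add_one
  have h2 : Nat.card G.edgeSet ≤ Nat.card {x : V // x ≠ r} := by
    have hsub : G.edgeSet ⊆ Set.range (fun x : {x : V // x ≠ r} => s(x.1, par x.1)) := by
      intro e
      induction e using Sym2.ind with
      | _ x y =>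
        intro he
        rw [mem_edgeSet, hadj] at he
        rcases he with ⟨hx, hy⟩ | ⟨hx, hy⟩
        · exact ⟨⟨x, hx⟩, by simp [hy]⟩
        · exact ⟨⟨y, hx⟩, by simp [hy, Sym2.eq_swap]⟩
    calc Nat.card G.edgeSet ≤ Nat.card (Set.range (fun x : {x : V // x ≠ r} => s(x.1, par x.1))) :=
          Nat.card_mono (Set.toFinite _) hsub
      _ ≤ Nat.card {x : V // x ≠ r} := Finite.card_range_le _
  have h3 : Nat.card {x : V // x ≠ r} + 1 = Nat.card V := by
    have := Fintype.ofFinite V
    rw [Nat.card_eq_fintype_card, Nat.card_eq_fintype_card, Fintype.card_subtype_compl]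
    have : 0 < Fintype.card V := Fintype.card_pos_iff.2 ⟨r⟩
    simp
    omega
  omega

lemma isTree_pathGraph {k : ℕ} (hk : 0 < k) : (pathGraph k).IsTree := by
  refine isTree_of_parent (pathGraph k) ⟨0, hk⟩ (fun x => ⟨x.1 - 1, by omega⟩) (fun x => x.1) ?_ ?_
  · intro x hx
    have : x.1 ≠ 0 := fun h => hx (Fin.ext h)
    simp; omega
  · intro x y
    rw [pathGraph_adj]
    simp only [ne_eq, Fin.ext_iff]
    omega

/-- The path on `k` vertices. -/
def pathTree (k : ℕ) (hk : 4 ≤ k) : TreeOn k := ⟨pathGraph k, isTree_pathGraph (by omega)⟩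

/-- The star on `k` vertices (with centre `0`). -/
def starTree (k : ℕ) (hk : 4 ≤ k) : TreeOn k :=
  ⟨starGraph (⟨0, by omega⟩ : Fin k), isTree_starGraph _⟩

end Pool.Agent.Helper49.PS
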