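import Pool.Agent.Helper49.PS.PathUp

namespace Pool.Agent.Helper49.PS

open SimpleGraph Finset
open scoped Classical

variable (P : Par)

lemma card_VV : Fintype.card (VV P) = P.N * (P.g + P.D + P.M * P.L) := by
  simp only [VV, Fintype.card_sum, Fintype.card_prod, Fintype.card_fin]
  ring

/-- the children -/
noncomputable def chd (x : VV P) : Finset (VV P) := univ.filter (fun y => y ≠ rt P ∧ par P y = x)

lemma dg_le_chd (x : VV P) : dg (TT P) x ≤ (chd P x).card + 1 := by
  have h1 : (univ.filter (fun u => (TT P).Adj x u)) ⊆ insert (par P x) (chd P x) := by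
    intro y hy
    rw [mem_filter] at hy
    rw [mem_insert]
    rcases hy.2 with h | h
    · exact Or.inl h.2.symm
    · right
      rw [chd, mem_filter]
      exact ⟨mem_univ _, h⟩
  exact (Finset.card_le_card h1).trans (Finset.card_insert_le _ _)

lemma chd_spine (j : Fin P.N) (i : Fin P.g) :
    (chd P (Sum.inl (j, i))).card ≤ 1 + (if i.1 = 0 then P.D else 0) := by
  have h1 : chd P (Sum.inl (j, i)) ⊆
      (chd P (Sum.inl (j, i))).filter (fun y => ht P y = 0) ∪
      (if i.1 = 0 then (univ : Finset (Fin P.D)).image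
        (fun a => (Sum.inr (Sum.inl (j, a)) : VV P)) else ∅) := by
    intro y hy
    rw [mem_union, mem_filter]
    rcases y with p | ⟨j', a⟩ | ⟨j', a, b⟩
    · left; exact ⟨hy, rfl⟩
    · right
      rw [chd, mem_filter] at hy
      have h2 := hy.2.2
      simp only [par, Sum.inl.injEq, Prod.mk.injEq] at h2
      rw [if_pos (by rw [← h2.2]), mem_image]
      exact ⟨a, mem_univ _, by rw [h2.1]⟩
    · rw [chd, mem_filter] at hy
      have h2 := hy.2.2
      simp [par] at h2
  have h2 : ((chd P (Sum.inl (j, i))).filter (fun y => ht P y = 0)).card ≤ 1 := by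
    rw [Finset.card_le_one]
    intro y hy z hz
    rw [mem_filter, chd, mem_filter] at hy hz
    have e : ∀ y : VV P, (y ≠ rt P ∧ par P y = Sum.inl (j, i)) → ht P y = 0 →
        ss P y = ss P (Sum.inl (j, i)) + 1 := by
      intro y hy hh
      have h3 := par_rk P y hy.1
      rw [hy.2] at h3
      have h4 : ht P (Sum.inl (j, i)) = 0 := rfl
      rw [hh, h4] at h3
      omega
    have h5 := e y hy.1.2 hy.2
    have h6 := e z hz.1.2 hz.2
    rcases y with p | p | p
    · rcases z with q | q | q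
      · rw [ss_inj P (h5.trans h6.symm)]
      · simp [ht] at hz
      · simp [ht] at hz
    · simp [ht] at hy
    · simp [ht] at hy
  refine (Finset.card_le_card h1).trans ((Finset.card_union_le _ _).trans ?_)
  refine Nat.add_le_add h2 ?_
  split_ifs
  · refine Finset.card_image_le.trans ?_
    simp
  · simp

lemma chd_ch (j : Fin P.N) (a : Fin P.D) :
    (chd P (Sum.inr (Sum.inl (j, a)))).card ≤ (if a.1 < P.M then P.L else 0) := by
  by_cases h : a.1 < P.M
  · rw [if_pos h]
    have h1 : chd P (Sum.inr (Sum.inl (j, a))) ⊆ (univ : Finset (Fin P.L)).image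
        (fun b => (Sum.inr (Sum.inr (j, ⟨a.1, h⟩, b)) : VV P)) := by
      intro y hy
      rw [chd, mem_filter] at hy
      rcases y with ⟨j', i'⟩ | ⟨j', a'⟩ | ⟨j', a', b⟩
      · exfalso
        have h2 := hy.2.2
        simp only [par] at h2
        split_ifs at h2
      · exfalso
        have h2 := hy.2.2
        simp [par] at h2
      · have h2 := hy.2.2
        simp only [par, Sum.inr.injEq, Sum.inl.injEq, Prod.mk.injEq] at h2
        rw [mem_image]
        refine ⟨b, mem_univ _, ?_⟩
        obtain ⟨h3, h4⟩ := h2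
        subst h3
        congr 3
        apply Prod.ext
        · apply Fin.ext
          exact (congrArg Fin.val h4).symm
        · rfl
    refine (Finset.card_le_card h1).trans (Finset.card_image_le.trans ?_)
    simp
  · rw [if_neg h, Nat.le_zero, Finset.card_eq_zero]
    rw [Finset.eq_empty_iff_forall_notMem]
    intro y hy
    rw [chd, mem_filter] at hy
    rcases y with ⟨j', i'⟩ | ⟨j', a'⟩ | ⟨j', a', b⟩
    · have h2 := hy.2.2
      simp only [par] at h2
      split_ifs at h2
    · have h2 := hy.2.2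
      simp [par] at h2
    · have h2 := hy.2.2
      simp only [par, Sum.inr.injEq, Sum.inl.injEq, Prod.mk.injEq] at h2
      apply h
      rw [← h2.2]
      exact a'.2

lemma chd_gc (j : Fin P.N) (a : Fin P.M) (b : Fin P.L) :
    (chd P (Sum.inr (Sum.inr (j, a, b)))).card = 0 := by
  rw [Finset.card_eq_zero, Finset.eq_empty_iff_forall_notMem]
  intro y hy
  rw [chd, mem_filter] at hy
  rcases y with ⟨j', i'⟩ | ⟨j', a'⟩ | ⟨j', a', b'⟩
  · have h2 := hy.2.2
    simp only [par] at h2
    split_ifs at h2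
  · have h2 := hy.2.2
    simp [par] at h2
  · have h2 := hy.2.2
    simp [par] at h2

lemma mom_TT (r : ℕ) (hr : 1 ≤ r) : mom (TT P) r ≤ (P.N : ℝ) * (((P.D : ℝ) + 2) ^ r +
    P.g * 2 ^ r + P.M * ((P.L : ℝ) + 1) ^ r + P.D + P.M * P.L) := by
  rw [mom, Fintype.sum_sum_type, Fintype.sum_sum_type]
  have h1 : ∑ p : Fin P.N × Fin P.g, (dg (TT P) (Sum.inl p) : ℝ) ^ r ≤
      (P.N : ℝ) * (((P.D : ℝ) + 2) ^ r + P.g * 2 ^ r) := by
    have h2 : ∀ p : Fin P.N × Fin P.g, (dg (TT P) (Sum.inl p) : ℝ) ^ r ≤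
        (if p.2.1 = 0 then ((P.D : ℝ) + 2) ^ r else 0) + 2 ^ r := by
      rintro ⟨j, i⟩
      have h3 := (dg_le_chd P (Sum.inl (j, i))).trans (Nat.add_le_add_right (chd_spine P j i) 1)
      have h4 : (dg (TT P) (Sum.inl (j, i)) : ℝ) ≤ 1 + (if i.1 = 0 then (P.D : ℝ) else 0) + 1 := by
        exact_mod_cast h3
      have h5 := pow_le_pow_left₀ (by positivity) h4 r
      refine h5.trans ?_
      simp only
      split_ifs
      · rw [show (1 : ℝ) + P.D + 1 = P.D + 2 by ring]
        have : (0 : ℝ) ≤ 2 ^ r := by positivity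
        linarith
      · rw [show (1 : ℝ) + 0 + 1 = 2 by ring]
        linarith
    refine (Finset.sum_le_sum fun p _ => h2 p).trans ?_
    rw [Fintype.sum_prod_type]
    simp only [Finset.sum_add_distrib, Finset.sum_const, Finset.card_univ, Fintype.card_fin,
      nsmul_eq_mul]
    have h6 : ∑ i : Fin P.g, (if i.1 = 0 then ((P.D : ℝ) + 2) ^ r else 0) ≤
        ((P.D : ℝ) + 2) ^ r := by
      rw [Finset.sum_eq_single (⟨0, P.hg⟩ : Fin P.g)]
      · simp
      · intro i _ hi
        rw [if_neg]
        intro h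
        exact hi (Fin.ext h)
      · intro h
        exact absurd (mem_univ _) h
    have hN : (0 : ℝ) ≤ P.N := by positivity
    have e : ∑ _x : Fin P.N, ∑ i : Fin P.g, (if i.1 = 0 then ((P.D : ℝ) + 2) ^ r else 0) =
        P.N * ∑ i : Fin P.g, (if i.1 = 0 then ((P.D : ℝ) + 2) ^ r else 0) := by
      rw [Finset.sum_const]; simp
    rw [e]
    nlinarith [mul_le_mul_of_nonneg_left h6 hN]
  have h2 : ∑ p : Fin P.N × Fin P.D, (dg (TT P) (Sum.inr (Sum.inl p)) : ℝ) ^ r ≤
      (P.N : ℝ) * (P.M * ((P.L : ℝ) + 1) ^ r + P.D) := by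
    have h2 : ∀ p : Fin P.N × Fin P.D, (dg (TT P) (Sum.inr (Sum.inl p)) : ℝ) ^ r ≤
        (if p.2.1 < P.M then ((P.L : ℝ) + 1) ^ r else 0) + 1 := by
      rintro ⟨j, a⟩
      have h3 := (dg_le_chd P (Sum.inr (Sum.inl (j, a)))).trans
        (Nat.add_le_add_right (chd_ch P j a) 1)
      have h4 : (dg (TT P) (Sum.inr (Sum.inl (j, a))) : ℝ) ≤
          (if a.1 < P.M then (P.L : ℝ) else 0) + 1 := by
        exact_mod_cast h3
      have h5 := pow_le_pow_left₀ (by positivity) h4 r
      refine h5.trans ?_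
      simp only
      split_ifs
      · linarith
      · simp
    refine (Finset.sum_le_sum fun p _ => h2 p).trans ?_
    rw [Fintype.sum_prod_type]
    simp only [Finset.sum_add_distrib, Finset.sum_const, Finset.card_univ, Fintype.card_fin,
      nsmul_eq_mul, mul_one]
    have h6 : ∑ i : Fin P.D, (if i.1 < P.M then ((P.L : ℝ) + 1) ^ r else 0) ≤
        P.M * ((P.L : ℝ) + 1) ^ r := by
      rw [← Finset.sum_filter, Finset.sum_const, nsmul_eq_mul]
      refine mul_le_mul_of_nonneg_right ?_ (by positivity)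
      have h7 : (univ.filter (fun i : Fin P.D => i.1 < P.M)).card ≤ P.M := by
        have h8 : (univ.filter (fun i : Fin P.D => i.1 < P.M)).card =
            ((univ.filter (fun i : Fin P.D => i.1 < P.M)).image (fun i => i.1)).card := by
          rw [Finset.card_image_of_injective _ Fin.val_injective]
        rw [h8]
        have h9 : (univ.filter (fun i : Fin P.D => i.1 < P.M)).image (fun i => i.1) ⊆
            Finset.range P.M := by
          intro n hn
          rw [mem_image] at hn
          obtain ⟨i, hi, rfl⟩ := hn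
          rw [mem_filter] at hi
          exact Finset.mem_range.2 hi.2
        exact (Finset.card_le_card h9).trans (by simp)
      exact_mod_cast h7
    have hN : (0 : ℝ) ≤ P.N := by positivity
    have e : ∑ _x : Fin P.N, ∑ i : Fin P.D, (if i.1 < P.M then ((P.L : ℝ) + 1) ^ r else 0) =
        P.N * ∑ i : Fin P.D, (if i.1 < P.M then ((P.L : ℝ) + 1) ^ r else 0) := by
      rw [Finset.sum_const]; simp
    rw [e]
    nlinarith [mul_le_mul_of_nonneg_left h6 hN]
  have h3 : ∑ p : Fin P.N × (Fin P.M × Fin P.L), (dg (TT P) (Sum.inr (Sum.inr p)) : ℝ) ^ r ≤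
      (P.N : ℝ) * (P.M * P.L) := by
    have h2 : ∀ p : Fin P.N × (Fin P.M × Fin P.L),
        (dg (TT P) (Sum.inr (Sum.inr p)) : ℝ) ^ r ≤ 1 := by
      rintro ⟨j, a, b⟩
      have h3 := dg_le_chd P (Sum.inr (Sum.inr (j, a, b)))
      rw [chd_gc] at h3
      have h4 : (dg (TT P) (Sum.inr (Sum.inr (j, a, b))) : ℝ) ≤ 1 := by exact_mod_cast h3
      exact pow_le_one₀ (by positivity) h4
    refine (Finset.sum_le_sum fun p _ => h2 p).trans ?_
    simp
  have hN : (0 : ℝ) ≤ P.N := by positivity
  nlinarith [h1, h2, h3]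

/-- the degree of a hub -/
lemma dg_hub (j : Fin P.N) : P.D ≤ dg (TT P) (Sum.inl (j, ⟨0, P.hg⟩)) := by
  have h1 : ((univ : Finset (Fin P.D)).image (fun a => (Sum.inr (Sum.inl (j, a)) : VV P))).card =
      P.D := by
    rw [Finset.card_image_of_injective]
    · simp
    · intro a b hab
      simpa using hab
  calc P.D = _ := h1.symm
    _ ≤ _ := by
      refine Finset.card_le_card ?_
      intro y hy
      rw [mem_image] at hy
      obtain ⟨a, -, rfl⟩ := hy
      rw [mem_filter]
      exact ⟨mem_univ _, (adj_ch P j a).symm⟩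

lemma conF_lower (k : ℕ) (hk : 1 ≤ k) :
    P.N * P.D.choose (k - 1) ≤ (conF (TT P) k).card * k := by
  have h1 := le_stars (TT P) k hk
  have h2 : (starsF (TT P) k).card ≤ (conF (TT P) k).card := by rw [conF_card]; omega
  have h3 : P.N * P.D.choose (k - 1) ≤ ∑ v, (dg (TT P) v).choose (k - 1) := by
    have h4 : ∑ j : Fin P.N, (P.D).choose (k - 1) ≤
        ∑ v ∈ (univ : Finset (Fin P.N)).image (fun j => (Sum.inl (j, ⟨0, P.hg⟩) : VV P)),
          (dg (TT P) v).choose (k - 1) := by
      rw [Finset.sum_image]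
      · exact Finset.sum_le_sum fun j _ => Nat.choose_le_choose _ (dg_hub P j)
      · intro a _ b _ hab
        simpa using hab
    have h5 := h4.trans (Finset.sum_le_sum_of_subset (subset_univ _))
    simpa using h5
  exact h3.trans (h1.trans (Nat.mul_le_mul_right _ h2))

lemma nonstars_lower (k : ℕ) (hk : 4 ≤ k) :
    P.N * (P.M * P.L) * (P.D - 1).choose (k - 3) ≤ (nonstars (TT P) k).card * k ^ 3 := by
  have h1 := le_nonstars (TT_tree P) k hk
  refine le_trans ?_ h1
  have h4 : ∑ _t : Fin P.N × (Fin P.M × Fin P.L), (P.D - 1).choose (k - 3) ≤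
      ∑ t ∈ (univ : Finset (Fin P.N × (Fin P.M × Fin P.L))).image
        (fun t => ((Sum.inl (t.1, ⟨0, P.hg⟩), Sum.inr (Sum.inl (t.1, Fin.castLE P.hMD t.2.1)),
          Sum.inr (Sum.inr (t.1, t.2.1, t.2.2))) : VV P × VV P × VV P)),
        (dg (TT P) t.1 - 1).choose (k - 3) := by
    rw [Finset.sum_image]
    · exact Finset.sum_le_sum fun t _ => Nat.choose_le_choose _ (Nat.sub_le_sub_right
        (dg_hub P t.1) 1)
    · rintro ⟨j, a, b⟩ _ ⟨j', a', b'⟩ _ hab
      simp only [Prod.mk.injEq, Sum.inr.injEq] at hab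
      simp only [Prod.mk.injEq]
      exact hab.2.2
  have h5 : (univ : Finset (Fin P.N × (Fin P.M × Fin P.L))).image
        (fun t => ((Sum.inl (t.1, ⟨0, P.hg⟩), Sum.inr (Sum.inl (t.1, Fin.castLE P.hMD t.2.1)),
          Sum.inr (Sum.inr (t.1, t.2.1, t.2.2))) : VV P × VV P × VV P)) ⊆ tri (TT P) := by
    intro t ht
    rw [mem_image] at ht
    obtain ⟨⟨j, a, b⟩, -, rfl⟩ := ht
    exact (mem_tri _).2 ⟨(adj_ch P j _).symm, (adj_gc P j a b).symm, by simp⟩
  have h6 := h4.trans (Finset.sum_le_sum_of_subset h5)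
  simpa using h6

end Pool.Agent.Helper49.PS
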