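import Pool.Agent.Helper49.PS.Numeric

namespace Pool.Agent.Helper49.PS

open SimpleGraph Finset Filter Topology
open scoped Classical

/-- the extremal families -/
lemma family (k : ℕ) (hk : 4 ≤ k) : ∃ (C c : ℝ) (e s : ℕ), 0 < C ∧ 0 < c ∧ 0 < e ∧
    rate k = (s : ℝ) / e ∧ ∀ m N : ℕ, k ≤ m → 2 ≤ N → ∃ P : Par, P.N = N ∧ k ≤ P.D ∧
      pp (TT P) k * (m : ℝ) ^ e ≤ C ∧ c ≤ qq (TT P) k * (m : ℝ) ^ s := by
  have hA1 := A1_pos k hk
  have hA2 := A2_pos k hk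
  have hK2 := K2_pos k
  have hk0 : (0 : ℝ) < k := by exact_mod_cast (by omega : 0 < k)
  rcases eq_or_ne k 4 with h4 | h4
  · subst h4
    refine ⟨2 * (2 * (4 : ℕ) + 1) * A1 4 * 3, 1 / (4 * (K2 4 * 2 ^ 6)), 2, 2, by positivity,
      by positivity, by norm_num, by norm_num [rate], ?_⟩
    intro m N hm hN
    have hm0 : (0 : ℝ) < m := by exact_mod_cast (by omega : 0 < m)
    let P : Par := ⟨N, 2 * 4, m, 0, 0, by omega, by norm_num, by omega⟩
    refine ⟨P, rfl, hm, ?_, ?_⟩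
    · have h1 := pp_up P 4 le_rfl (Or.inr (Or.inr ⟨rfl, rfl⟩)) hm rfl
      have h2 : pp (TT P) 4 * (m : ℝ) ^ (4 - 1) ≤
          2 * (2 * (4 : ℕ) + 1) * A1 4 * (3 * (m : ℝ) + ((0 : ℕ) : ℝ) * ((0 : ℕ) : ℝ)) := h1
      refine le_of_mul_le_mul_right ?_ hm0
      calc pp (TT P) 4 * (m : ℝ) ^ 2 * m = pp (TT P) 4 * (m : ℝ) ^ (4 - 1) := by ring
        _ ≤ _ := h2
        _ = _ := by push_cast; ring
    · have h1 := qq_low_four P hN hm rfl (by simp [P])
      have h2 : 1 ≤ qq (TT P) 4 * (4 * (K2 4 * 2 ^ 6)) * (m : ℝ) ^ 2 := h1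
      rw [div_le_iff₀ (by positivity)]
      calc (1 : ℝ) ≤ _ := h2
        _ = _ := by ring
  rcases eq_or_ne k 5 with h5 | h5
  · subst h5
    refine ⟨2 * (2 * (5 : ℕ) + 1) * A1 5 * 4, 1 / (A2 5 * (K2 5 * 2 ^ (5 + 2))), 3, 1,
      by positivity, by positivity, by norm_num, by norm_num [rate], ?_⟩
    intro m N hm hN
    have hm0 : (0 : ℝ) < m := by exact_mod_cast (by omega : 0 < m)
    let P : Par := ⟨N, 2 * 5, m, 1, m, by omega, by norm_num, by omega⟩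
    refine ⟨P, rfl, hm, ?_, ?_⟩
    · have h1 := pp_up P 5 (by norm_num) (Or.inr (Or.inl ⟨rfl, rfl⟩)) hm rfl
      have h2 : pp (TT P) 5 * (m : ℝ) ^ (5 - 1) ≤
          2 * (2 * (5 : ℕ) + 1) * A1 5 * (3 * (m : ℝ) + ((1 : ℕ) : ℝ) * (m : ℝ)) := h1
      refine le_of_mul_le_mul_right ?_ hm0
      calc pp (TT P) 5 * (m : ℝ) ^ 3 * m = pp (TT P) 5 * (m : ℝ) ^ (5 - 1) := by ring
        _ ≤ _ := h2
        _ = _ := by push_cast; ring
    · have h1 := qq_low P 5 (by norm_num) hm rfl (by simp [P])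
      have h2 : ((1 : ℕ) : ℝ) * (m : ℝ) ≤
        qq (TT P) 5 * (A2 5 * (K2 5 * 2 ^ (5 + 2))) * (m : ℝ) ^ 2 := h1
      rw [div_le_iff₀ (by positivity)]
      refine le_of_mul_le_mul_right ?_ hm0
      calc (1 : ℝ) * m = ((1 : ℕ) : ℝ) * (m : ℝ) := by push_cast; ring
        _ ≤ _ := h2
        _ = _ := by ring
  · have h6 : 6 ≤ k := by omega
    refine ⟨2 * (2 * k + 1) * A1 k * 4, 1 / (A2 k * (K2 k * 2 ^ (k + 2))), (k - 2) ^ 2, 1,
      by positivity, by positivity, ?_, ?_, ?_⟩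
    · have : 0 < k - 2 := by omega
      positivity
    · simp only [rate, h4, h5, if_false]
      push_cast [Nat.cast_sub (by omega : 2 ≤ k)]
      rfl
    intro m N hm hN
    have hm1 : 1 ≤ m := by omega
    have hm0 : (0 : ℝ) < m := by exact_mod_cast hm1
    have hmr : (1 : ℝ) ≤ m := by exact_mod_cast hm1
    let P : Par := ⟨N, 2 * k, m ^ (k - 1), m ^ (k - 1), m ^ (k - 2), by omega, by omega, le_rfl⟩
    have hD : k ≤ P.D := hm.trans (by
      calc m = m ^ 1 := (pow_one m).symm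
        _ ≤ m ^ (k - 1) := Nat.pow_le_pow_right hm1 (by omega))
    obtain ⟨j, hj⟩ : ∃ j, k = j + 3 := ⟨k - 3, by omega⟩
    refine ⟨P, rfl, hD, ?_, ?_⟩
    · have h1 := pp_up P k hk (Or.inl h6) hD rfl
      have h2 : pp (TT P) k * (((m ^ (k - 1) : ℕ) : ℝ)) ^ (k - 1) ≤
          2 * (2 * k + 1) * A1 k * (3 * ((m ^ (k - 1) : ℕ) : ℝ) +
            ((m ^ (k - 1) : ℕ) : ℝ) * ((m ^ (k - 2) : ℕ) : ℝ)) := h1
      push_cast at h2
      have e1 : (m : ℝ) ^ (k - 1) * (m : ℝ) ^ (k - 2) = (m : ℝ) ^ (2 * k - 3) := by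
        rw [← pow_add]; congr 1; omega
      have e2 : ((m : ℝ) ^ (k - 1)) ^ (k - 1) = (m : ℝ) ^ ((k - 2) ^ 2) * (m : ℝ) ^ (2 * k - 3) := by
        rw [← pow_mul, ← pow_add]
        congr 1
        subst hj
        have a1 : j + 3 - 1 = j + 2 := by omega
        have a2 : j + 3 - 2 = j + 1 := by omega
        have a3 : 2 * (j + 3) - 3 = 2 * j + 3 := by omega
        rw [a1, a2, a3]
        ring
      have e3 : (m : ℝ) ^ (k - 1) ≤ (m : ℝ) ^ (2 * k - 3) := pow_le_pow_right₀ hmr (by omega)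
      rw [e1, e2] at h2
      have hpos : (0 : ℝ) < (m : ℝ) ^ (2 * k - 3) := by positivity
      refine le_of_mul_le_mul_right ?_ hpos
      calc pp (TT P) k * (m : ℝ) ^ ((k - 2) ^ 2) * (m : ℝ) ^ (2 * k - 3) =
            pp (TT P) k * ((m : ℝ) ^ ((k - 2) ^ 2) * (m : ℝ) ^ (2 * k - 3)) := by ring
        _ ≤ _ := h2
        _ ≤ 2 * (2 * k + 1) * A1 k * (3 * (m : ℝ) ^ (2 * k - 3) + (m : ℝ) ^ (2 * k - 3)) := by
            gcongr
        _ = _ := by ring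
    · have h1 := qq_low P k hk hD rfl (by
        change m ^ (k - 1) * (m ^ (k - 2)) ^ (k - 1) ≤ (m ^ (k - 1)) ^ (k - 1)
        rw [← pow_mul, ← pow_mul, ← pow_add]
        refine le_of_eq ?_
        congr 1
        subst hj
        have a1 : j + 3 - 1 = j + 2 := by omega
        have a2 : j + 3 - 2 = j + 1 := by omega
        rw [a1, a2]
        ring)
      have h2 : ((m ^ (k - 1) : ℕ) : ℝ) * ((m ^ (k - 2) : ℕ) : ℝ) ≤
        qq (TT P) k * (A2 k * (K2 k * 2 ^ (k + 2))) * ((m ^ (k - 1) : ℕ) : ℝ) ^ 2 := h1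
      push_cast at h2
      have e1 : ((m : ℝ) ^ (k - 1)) ^ 2 = (m : ℝ) ^ (k - 1) * (m : ℝ) ^ (k - 2) * m := by
        rw [← pow_mul, ← pow_add, ← pow_succ]; congr 1; omega
      rw [e1] at h2
      have hpos : (0 : ℝ) < (m : ℝ) ^ (k - 1) * (m : ℝ) ^ (k - 2) := by positivity
      rw [div_le_iff₀ (by positivity)]
      refine le_of_mul_le_mul_right ?_ hpos
      calc (1 : ℝ) * ((m : ℝ) ^ (k - 1) * (m : ℝ) ^ (k - 2)) =
            (m : ℝ) ^ (k - 1) * (m : ℝ) ^ (k - 2) := by ring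
        _ ≤ _ := h2
        _ = _ := by ring

/-- compactness -/
lemma exists_limit (k : ℕ) (hk : 4 ≤ k) (a b : ℝ)
    (h : ∀ i : ℕ, ∃ P : Par, P.N = i + 2 ∧ k ≤ P.D ∧ pp (TT P) k ≤ a ∧ b ≤ qq (TT P) k) :
    ∃ p ∈ limitSet k, p (pathTree k hk) ≤ a ∧ b ≤ 1 - p (starTree k hk) := by
  choose P hN hD hpp hqq using h
  have hcomp : IsCompact (Set.univ.pi (fun _ : TreeOn k => Set.Icc (0 : ℝ) 1)) :=
    isCompact_univ_pi (fun _ => isCompact_Icc)
  have hmem : ∀ i : ℕ, profile k (TT (P i)) ∈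
      Set.univ.pi (fun _ : TreeOn k => Set.Icc (0 : ℝ) 1) := by
    intro i H _
    exact profile_mem k H
  obtain ⟨p, -, φ, hφ, hlim⟩ := hcomp.tendsto_subseq hmem
  have hlim' : Tendsto (fun i => profile k (TT (P (φ i)))) atTop (𝓝 p) := hlim
  have hcard : Tendsto (fun i => Fintype.card (VV (P (φ i)))) atTop atTop := by
    refine tendsto_atTop_mono ?_ hφ.tendsto_atTop
    intro i
    rw [card_VV, hN]
    have hg := (P (φ i)).hg
    have h1 : 1 ≤ (P (φ i)).g + (P (φ i)).D + (P (φ i)).M * (P (φ i)).L := by omega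
    calc φ i ≤ φ i + 2 := Nat.le_add_right _ _
      _ = (φ i + 2) * 1 := (mul_one _).symm
      _ ≤ _ := Nat.mul_le_mul_left _ h1
  refine ⟨p, ⟨fun i => VV (P (φ i)), fun i => inferInstance, fun i => TT (P (φ i)),
      fun i => TT_tree _, hcard, hlim'⟩, ?_, ?_⟩
  · have h1 := (tendsto_pi_nhds.1 hlim') (pathTree k hk)
    refine le_of_tendsto' h1 ?_
    intro i
    rw [profile_path]
    exact hpp _
  · have h1 := ((tendsto_pi_nhds.1 hlim') (starTree k hk)).const_sub 1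
    refine ge_of_tendsto' h1 ?_
    intro i
    rw [profile_star (TT_tree _) k hk (card_ge _ k (hD _))]
    exact hqq _

/-- part (B) -/
theorem lower (k : ℕ) (hk : 4 ≤ k) : ∃ c : ℝ, 0 < c ∧ ∀ δ : ℝ, 0 < δ → δ ≤ 1 →
    ∃ p ∈ limitSet k, p (pathTree k hk) ≤ δ ∧ c * δ ^ rate k ≤ 1 - p (starTree k hk) := by
  obtain ⟨C, c, e, s, hC, hc, he, hr, hfam⟩ := family k hk
  have her : (0 : ℝ) < e := by exact_mod_cast he
  have hk0 : (0 : ℝ) < k := by exact_mod_cast (by omega : 0 < k)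
  set Q : ℝ := k * (C ^ ((1 : ℝ) / e) + 1) with hQ
  have hQ0 : 0 < Q := by positivity
  refine ⟨c / Q ^ s, by positivity, ?_⟩
  intro δ hδ hδ1
  set y : ℝ := (C / δ) ^ ((1 : ℝ) / e) with hy
  have hy0 : 0 < y := by positivity
  have hye : y ^ e = C / δ := by
    rw [hy, ← Real.rpow_natCast, ← Real.rpow_mul (by positivity)]
    rw [one_div_mul_cancel her.ne', Real.rpow_one]
  set t : ℕ := ⌈y⌉₊ with ht
  have ht1 : 1 ≤ t := Nat.one_le_iff_ne_zero.2 (by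
    rw [ht]
    exact (Nat.ceil_pos.2 hy0).ne')
  have hty : y ≤ t := Nat.le_ceil y
  have hty2 : (t : ℝ) ≤ y + 1 := (Nat.ceil_lt_add_one hy0.le).le
  set m : ℕ := k * t with hm
  have hkm : k ≤ m := by rw [hm]; nlinarith
  have hmr : (m : ℝ) = k * t := by rw [hm]; push_cast; ring
  have hm0 : (0 : ℝ) < m := by exact_mod_cast (by omega : 0 < m)
  have hym : y ≤ m := by
    rw [hmr]
    have h1 : (1 : ℝ) ≤ k := by exact_mod_cast (by omega : 1 ≤ k)
    nlinarith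
  have hdel : 1 ≤ δ ^ (-((1 : ℝ) / e)) := by
    apply Real.one_le_rpow_of_pos_of_le_one_of_nonpos hδ hδ1
    have : 0 < (1 : ℝ) / e := by positivity
    linarith
  have hyd : y = C ^ ((1 : ℝ) / e) * δ ^ (-((1 : ℝ) / e)) := by
    rw [hy, Real.div_rpow hC.le hδ.le, Real.rpow_neg hδ.le]
    rfl
  have hmQ : (m : ℝ) ≤ Q * δ ^ (-((1 : ℝ) / e)) := by
    rw [hmr, hQ, mul_assoc]
    refine mul_le_mul_of_nonneg_left ?_ hk0.le
    rw [add_mul, ← hyd, one_mul]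
    linarith
  obtain ⟨p, hp, hp1, hp2⟩ := exists_limit k hk (C / (m : ℝ) ^ e) (c / (m : ℝ) ^ s) (by
    intro i
    obtain ⟨P, h1, h2, h3, h4⟩ := hfam m (i + 2) hkm (by omega)
    refine ⟨P, h1, h2, ?_, ?_⟩
    · rw [le_div_iff₀ (by positivity)]
      exact h3
    · rw [div_le_iff₀ (by positivity)]
      exact h4)
  refine ⟨p, hp, hp1.trans ?_, le_trans ?_ hp2⟩
  · have h1 : C / δ ≤ (m : ℝ) ^ e := by
      rw [← hye]
      exact pow_le_pow_left₀ hy0.le hym e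
    rw [div_le_iff₀ (by positivity)]
    rw [div_le_iff₀ hδ] at h1
    linarith
  · have h1 : (m : ℝ) ^ s ≤ Q ^ s * δ ^ (-rate k) := by
      calc (m : ℝ) ^ s ≤ (Q * δ ^ (-((1 : ℝ) / e))) ^ s := pow_le_pow_left₀ hm0.le hmQ s
        _ = Q ^ s * (δ ^ (-((1 : ℝ) / e))) ^ s := by rw [mul_pow]
        _ = _ := by
            congr 1
            rw [← Real.rpow_natCast, ← Real.rpow_mul hδ.le, hr]
            congr 1
            ring
    have h2 : c / Q ^ s * δ ^ rate k = c / (Q ^ s * δ ^ (-rate k)) := by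
      rw [Real.rpow_neg hδ.le]
      have : 0 < δ ^ rate k := Real.rpow_pos_of_pos hδ _
      field_simp
    rw [h2]
    exact div_le_div_of_nonneg_left hc.le (by positivity) h1

end Pool.Agent.Helper49.PS
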