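import Pool.Agent.Helper49.PS.Small

namespace Pool.Agent.Helper49.PS

open SimpleGraph Finset
open scoped Classical

variable {V : Type} [Fintype V] {G : SimpleGraph V}

/-- two legs of length two at a vertex -/
noncomputable def T5 (G : SimpleGraph V) : Finset (Σ _ : V, Σ _ : V × V, V × V) :=
  univ.sigma (fun v => (((nb G v) ×ˢ (nb G v)).filter (fun p => p.1 ≠ p.2)).sigma
    (fun p => ((nb G p.1).erase v) ×ˢ ((nb G p.2).erase v)))

lemma card_T5 : (T5 G).card = ∑ v, ∑ p ∈ ((nb G v) ×ˢ (nb G v)).filter (fun p => p.1 ≠ p.2),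
    (dg G p.1 - 1) * (dg G p.2 - 1) := by
  rw [T5, Finset.card_sigma]
  refine Finset.sum_congr rfl ?_
  intro v _
  rw [Finset.card_sigma]
  refine Finset.sum_congr rfl ?_
  intro p hp
  rw [mem_filter, mem_product] at hp
  rw [Finset.card_product]
  have h1 : ∀ u ∈ nb G v, ((nb G u).erase v).card = dg G u - 1 := by
    intro u hu
    rw [Finset.card_erase_of_mem]
    · rfl
    · rw [nb, mem_filter] at hu ⊢
      exact ⟨mem_univ _, hu.2.symm⟩
  rw [h1 _ hp.1.1, h1 _ hp.1.2]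

lemma T5_le (hG : G.IsTree) : (T5 G).card ≤ (pathsF G 5).card * 5 ^ 5 := by
  have hsub : T5 G ⊆ (pathsF G 5).biUnion (fun U => U.sigma (fun _ => (U ×ˢ U).sigma
      (fun _ => U ×ˢ U))) := by
    rintro ⟨v, ⟨u, u'⟩, ⟨w, w'⟩⟩ ht
    simp only [T5, mem_sigma, mem_univ, true_and, mem_filter, mem_product, mem_erase, nb] at ht
    obtain ⟨⟨⟨hvu, hvu'⟩, huu'⟩, ⟨hwv, huw⟩, ⟨hw'v, hu'w'⟩⟩ := ht
    let P : G.Walk w w' := Walk.cons huw.symm (Walk.cons hvu.symm (Walk.cons hvu'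
      (Walk.cons hu'w' Walk.nil)))
    have hP : P.IsPath := by
      rw [hG.isAcyclic.isPath_iff_isChain]
      simp only [P, Walk.edges_cons, Walk.edges_nil, List.isChain_cons_cons,
        List.isChain_singleton, and_true, ne_eq, Sym2.eq_iff]
      have h1 := hvu.ne
      have h2 := hvu'.ne
      have h3 := huw.ne
      have h4 := hu'w'.ne
      grind
    have hmem := support_mem_pathsF hG P hP 5 (by simp [P])
    rw [mem_biUnion]
    refine ⟨_, hmem, ?_⟩
    simp [P]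
  refine (Finset.card_le_card hsub).trans (Finset.card_biUnion_le_card_mul _ _ _ ?_)
  intro U hU
  rw [pathsF, mem_filter] at hU
  have hc := card_of_iso hU.2
  simp [Finset.card_sigma, hc]

lemma five_bound (hG : G.IsTree) (hn : 5 ≤ Fintype.card V) :
    ((nonstars G 5).card : ℝ) ^ 2 ≤ 625 * mom G 4 * (6250 * (pathsF G 5).card + mom G 2) := by
  set F : V → Finset V := fun v => univ.filter (fun u => G.Adj v u ∧ dg G u ≤ dg G v) with hF
  set a : V → ℝ := fun u => ((dg G u - 1 : ℕ) : ℝ) with ha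
  set Y : V → ℝ := fun v => ∑ u ∈ F v, a u with hY
  set Q : V → ℝ := fun v => ∑ p ∈ ((nb G v) ×ˢ (nb G v)).filter (fun p => p.1 ≠ p.2),
    a p.1 * a p.2 with hQ
  have hann : ∀ u, 0 ≤ a u := fun u => by positivity
  have hYnn : ∀ v, 0 ≤ Y v := fun v => Finset.sum_nonneg fun u _ => hann u
  have h1 : ((nonstars G 5).card : ℝ) ≤ 25 * ∑ v, Y v * (dg G v : ℝ) ^ 2 := by
    have h2 := nonstars_le' G 5 (by omega)
    have h3 : ((nonstars G 5).card : ℝ) ≤
      ((∑ v : V, ∑ u ∈ univ.filter (fun u => G.Adj v u ∧ dg G u ≤ dg G v),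
      (dg G u - 1) * (5 * dg G v) ^ (5 - 3) : ℕ) : ℝ) := by exact_mod_cast h2
    refine h3.trans (le_of_eq ?_)
    rw [Nat.cast_sum, Finset.mul_sum]
    refine Finset.sum_congr rfl ?_
    intro v _
    rw [Nat.cast_sum]
    simp only [hY, Finset.sum_mul, Finset.mul_sum, hF]
    refine Finset.sum_congr rfl ?_
    intro u _
    simp only [ha]
    rw [Nat.cast_mul, Nat.cast_pow, Nat.cast_mul]
    norm_num
    ring
  have h2 : ∀ v, Y v ^ 2 ≤ 2 * Q v + (dg G v : ℝ) ^ 2 := by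
    intro v
    have h3 : Y v ^ 2 = ∑ p ∈ (F v) ×ˢ (F v), a p.1 * a p.2 := by
      rw [sq, hY]
      simp only
      rw [Finset.sum_mul_sum, Finset.sum_product]
    have h4 : ∑ p ∈ (F v) ×ˢ (F v), a p.1 * a p.2 =
        ∑ p ∈ ((F v) ×ˢ (F v)).filter (fun p => p.1 ≠ p.2), a p.1 * a p.2 +
        ∑ p ∈ ((F v) ×ˢ (F v)).filter (fun p => ¬ p.1 ≠ p.2), a p.1 * a p.2 := by
      rw [Finset.sum_filter_add_sum_filter_not]
    have h5 : ∑ p ∈ ((F v) ×ˢ (F v)).filter (fun p => p.1 ≠ p.2), a p.1 * a p.2 ≤ Q v := by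
      rw [hQ]
      refine Finset.sum_le_sum_of_subset_of_nonneg ?_ (fun p _ _ => mul_nonneg (hann _) (hann _))
      intro p hp
      rw [mem_filter, mem_product] at hp ⊢
      simp only [hF, nb, mem_filter, mem_univ, true_and] at hp ⊢
      exact ⟨⟨hp.1.1.1, hp.1.2.1⟩, hp.2⟩
    have h6 : ∑ p ∈ ((F v) ×ˢ (F v)).filter (fun p => ¬ p.1 ≠ p.2), a p.1 * a p.2 ≤
        (dg G v : ℝ) * Y v := by
      have h7 : ∑ p ∈ ((F v) ×ˢ (F v)).filter (fun p => ¬ p.1 ≠ p.2), a p.1 * a p.2 =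
          ∑ u ∈ F v, a u * a u := by
        symm
        refine Finset.sum_bij' (fun u _ => (u, u)) (fun p _ => p.1) ?_ ?_ ?_ ?_ ?_
        · intro u hu; simp [hu]
        · intro p hp
          rw [mem_filter, mem_product] at hp
          exact hp.1.1
        · intro u _; rfl
        · intro p hp
          rw [mem_filter] at hp
          have := hp.2
          push Not at this
          exact Prod.ext rfl this
        · intro u _; rfl
      rw [h7, hY, Finset.mul_sum]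
      refine Finset.sum_le_sum ?_
      intro u hu
      refine mul_le_mul_of_nonneg_right ?_ (hann u)
      simp only [hF, mem_filter, mem_univ, true_and] at hu
      simp only [ha]
      exact_mod_cast (Nat.sub_le _ _).trans hu.2
    have h8 : Y v ^ 2 ≤ Q v + (dg G v : ℝ) * Y v := by
      rw [h3, h4]
      exact add_le_add h5 h6
    nlinarith [sq_nonneg ((dg G v : ℝ) - Y v)]
  have h3 : ∑ v, Y v ^ 2 ≤ 6250 * (pathsF G 5).card + mom G 2 := by
    have h4 : ∑ v, Q v = ((T5 G).card : ℝ) := by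
      rw [card_T5]
      push_cast
      rfl
    have h5 : ((T5 G).card : ℝ) ≤ (pathsF G 5).card * 5 ^ 5 := by exact_mod_cast T5_le hG
    calc ∑ v, Y v ^ 2 ≤ ∑ v, (2 * Q v + (dg G v : ℝ) ^ 2) := Finset.sum_le_sum fun v _ => h2 v
      _ = 2 * ∑ v, Q v + mom G 2 := by
          rw [Finset.sum_add_distrib, ← Finset.mul_sum, mom]
      _ ≤ _ := by rw [h4]; linarith
  have h4 : (∑ v, Y v * (dg G v : ℝ) ^ 2) ^ 2 ≤ (∑ v, Y v ^ 2) * mom G 4 := by
    have := Finset.sum_mul_sq_le_sq_mul_sq (univ : Finset V) Y (fun v => (dg G v : ℝ) ^ 2)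
    refine this.trans (le_of_eq ?_)
    rw [mom]
    congr 1
    refine Finset.sum_congr rfl fun v _ => by ring
  have hmom : 0 ≤ mom G 4 := by unfold mom; positivity
  calc ((nonstars G 5).card : ℝ) ^ 2 ≤ (25 * ∑ v, Y v * (dg G v : ℝ) ^ 2) ^ 2 :=
        pow_le_pow_left₀ (by positivity) h1 2
    _ = 625 * (∑ v, Y v * (dg G v : ℝ) ^ 2) ^ 2 := by ring
    _ ≤ 625 * ((∑ v, Y v ^ 2) * mom G 4) := by linarith
    _ ≤ 625 * ((6250 * (pathsF G 5).card + mom G 2) * mom G 4) := by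
        have := mul_le_mul_of_nonneg_right h3 hmom
        linarith
    _ = _ := by ring

lemma qq_five (hG : G.IsTree) (hn : 5 ≤ Fintype.card V) :
    (qq G 5) ^ 2 ≤ 625 * K1 5 * (6250 * pp G 5 + 2 * K1 5 * (RR G 5) ^ ((2 : ℝ) / 3)) := by
  have hZ := conF_pos hG 5 (by norm_num) hn
  have h1 := five_bound hG hn
  have hN : (0 : ℝ) < Fintype.card V := by exact_mod_cast (by omega : 0 < Fintype.card V)
  have hS : 0 < mom G 4 := mom_pos hG 5 (by norm_num) hn
  have h2 : mom G 2 ≤ 2 * mom G 4 * (RR G 5) ^ ((2 : ℝ) / 3) := by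
    have h3 := mom_interp hG (by omega) 2 4 (by norm_num) (by norm_num) (by norm_num)
    have e1 : (((4 : ℕ) : ℝ) - ((2 : ℕ) : ℝ)) / (((4 : ℕ) : ℝ) - 1) = 2 / 3 := by norm_num
    have e2 : (((2 : ℕ) : ℝ) - 1) / (((4 : ℕ) : ℝ) - 1) = 1 - 2 / 3 := by norm_num
    rw [e1, e2] at h3
    exact h3.trans (interp_form _ _ _ hN hS (by norm_num))
  have h3 : mom G 4 ≤ K1 5 * (conF G 5).card := mom_le_K1 hG 5 (by norm_num) hn
  have hRR : 0 ≤ (RR G 5) ^ ((2 : ℝ) / 3) :=
    Real.rpow_nonneg (RR_nonneg hG 5 (by norm_num) hn) _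
  have hK := K1_nonneg 5
  rw [qq, div_pow, div_le_iff₀ (by positivity)]
  have e3 : ((pathsF G 5).card : ℝ) = pp G 5 * (conF G 5).card := by
    rw [pp]; field_simp
  calc ((nonstars G 5).card : ℝ) ^ 2
      ≤ 625 * mom G 4 * (6250 * (pathsF G 5).card + mom G 2) := h1
    _ ≤ 625 * mom G 4 * (6250 * (pathsF G 5).card + 2 * mom G 4 * (RR G 5) ^ ((2 : ℝ) / 3)) := by
        refine mul_le_mul_of_nonneg_left ?_ (by positivity)
        linarith
    _ ≤ 625 * (K1 5 * (conF G 5).card) * (6250 * (pathsF G 5).card +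
          2 * (K1 5 * (conF G 5).card) * (RR G 5) ^ ((2 : ℝ) / 3)) := by
        gcongr
    _ = _ := by rw [e3]; ring

end Pool.Agent.Helper49.PS
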