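import Pool.Agent.Helper49.PS.Five

namespace Pool.Agent.Helper49.PS

open SimpleGraph Finset Filter Topology
open scoped Classical

section
variable {V : Type} [Fintype V] {G : SimpleGraph V}

lemma profile_path (k : ℕ) (hk : 4 ≤ k) : profile k G (pathTree k hk) = pp G k := by
  rw [profile, pp, copies_eq, subtrees_eq]
  rfl

lemma profile_star (hG : G.IsTree) (k : ℕ) (hk : 4 ≤ k) (hn : k ≤ Fintype.card V) :
    1 - profile k G (starTree k hk) = qq G k := by
  have h1 : copies G (starTree k hk).1 = (starsF G k).card := by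
    rw [copies_eq, starsF_eq hG.isAcyclic k (by omega)]
    rfl
  rw [profile, h1, subtrees_eq, qq]
  have hZ := conF_pos hG k hk hn
  have h2 := conF_card G k
  have h3 : ((conF G k).card : ℝ) = (starsF G k).card + (nonstars G k).card := by
    exact_mod_cast h2
  rw [eq_div_iff hZ.ne', sub_mul, div_mul_cancel₀ _ hZ.ne']
  linarith

lemma copies_le (k : ℕ) (H : TreeOn k) : copies G H.1 ≤ subtrees G k := by
  rw [copies_eq, subtrees_eq, conF]
  refine Finset.card_le_card ?_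
  intro U hU
  rw [mem_filter] at hU ⊢
  obtain ⟨-, h⟩ := hU
  refine ⟨mem_univ _, card_of_iso h, ?_⟩
  obtain ⟨e⟩ := h
  exact (Iso.connected_iff e).2 H.2.connected

lemma profile_mem (k : ℕ) (H : TreeOn k) : profile k G H ∈ Set.Icc (0 : ℝ) 1 := by
  rw [profile]
  refine ⟨by positivity, ?_⟩
  exact div_le_one_of_le₀ (by exact_mod_cast copies_le (G := G) k H) (by positivity)

end

/-- The optimal exponent: `1` for `k = 4`, `1 / 3` for `k = 5` and `1 / (k - 2) ^ 2` for `k ≥ 6`. -/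
noncomputable def rate (k : ℕ) : ℝ :=
  if k = 4 then 1 else if k = 5 then 1 / 3 else 1 / ((k : ℝ) - 2) ^ 2

lemma rate_pos (k : ℕ) (hk : 4 ≤ k) : 0 < rate k := by
  unfold rate
  have : (4 : ℝ) ≤ k := by exact_mod_cast hk
  split_ifs
  · norm_num
  · norm_num
  · have : (0 : ℝ) < (k : ℝ) - 2 := by linarith
    positivity

/-- the bound for finite trees -/
lemma finite_bound (k : ℕ) (hk : 4 ≤ k) : ∃ C : ℝ, 0 ≤ C ∧ ∃ κ : ℝ, 0 < κ ∧
    ∀ (V : Type) [Fintype V] (G : SimpleGraph V), G.IsTree → k ≤ Fintype.card V →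
      qq G k ≤ C * (pp G k + (Fintype.card V : ℝ) ^ (-κ)) ^ rate k := by
  set B : ℝ := k * K2 k + (2 * k + 1) with hB
  have hK2 := K2_nonneg k
  have hB0 : 0 ≤ B := by positivity
  have hRR : ∀ (V : Type) [Fintype V] (G : SimpleGraph V), G.IsTree → k ≤ Fintype.card V →
      RR G k ≤ B * (pp G k + (Fintype.card V : ℝ) ^ (-kap k)) := by
    intro V _ G hG hn
    refine (RR_le hG k hk hn).trans ?_
    have h1 : 0 ≤ pp G k := by unfold pp; positivity
    have h2 : (0 : ℝ) ≤ (Fintype.card V : ℝ) ^ (-kap k) := by positivity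
    have h3 : (0 : ℝ) ≤ k * K2 k := by positivity
    have h4 : (0 : ℝ) ≤ 2 * k + 1 := by positivity
    rw [hB]
    nlinarith [mul_nonneg h3 h2, mul_nonneg h4 h1]
  rcases eq_or_ne k 4 with h4 | h4
  · subst h4
    refine ⟨1, by norm_num, 1, one_pos, ?_⟩
    intro V _ G hG hn
    have h1 : qq G 4 ≤ pp G 4 := by
      unfold qq pp
      exact div_le_div_of_nonneg_right
        (by exact_mod_cast Finset.card_le_card (nonstars_four hG)) (by positivity)
    have h2 : (0 : ℝ) ≤ (Fintype.card V : ℝ) ^ (-(1 : ℝ)) := by positivity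
    simp only [rate, if_true, Real.rpow_one]
    linarith
  rcases eq_or_ne k 5 with h5 | h5
  · subst h5
    set D : ℝ := 625 * K1 5 * (6250 * 2 + 2 * K1 5 * B ^ ((2 : ℝ) / 3)) with hD
    have hK1 := K1_nonneg 5
    have hD0 : 0 ≤ D := by
      have : 0 ≤ B ^ ((2 : ℝ) / 3) := Real.rpow_nonneg hB0 _
      positivity
    refine ⟨√D, Real.sqrt_nonneg _, kap 5, kap_pos 5 (by norm_num), ?_⟩
    intro V _ G hG hn
    set x : ℝ := pp G 5 + (Fintype.card V : ℝ) ^ (-kap 5) with hx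
    have hpp : 0 ≤ pp G 5 := by unfold pp; positivity
    have hc0 : (0 : ℝ) ≤ (Fintype.card V : ℝ) ^ (-kap 5) := by positivity
    have hpp1 : pp G 5 ≤ 1 := by
      rw [← profile_path 5 (by norm_num)]
      exact (profile_mem 5 _).2
    have hc1 : (Fintype.card V : ℝ) ^ (-kap 5) ≤ 1 :=
      Real.rpow_le_one_of_one_le_of_nonpos (by exact_mod_cast (by omega : 1 ≤ Fintype.card V))
        (by have := kap_pos 5 (by norm_num); linarith)
    have hx0 : 0 ≤ x := by positivity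
    have hx2 : x ≤ 2 := by linarith
    have h1 := qq_five hG hn
    have h2 := hRR V G hG hn
    rw [← hx] at h2
    have h3 : (RR G 5) ^ ((2 : ℝ) / 3) ≤ B ^ ((2 : ℝ) / 3) * x ^ ((2 : ℝ) / 3) := by
      rw [← Real.mul_rpow hB0 hx0]
      exact Real.rpow_le_rpow (RR_nonneg hG 5 (by norm_num) hn) h2 (by norm_num)
    have h4 : pp G 5 ≤ 2 * x ^ ((2 : ℝ) / 3) := by
      have e1 : x = x ^ ((1 : ℝ) / 3) * x ^ ((2 : ℝ) / 3) := by
        rw [← Real.rpow_add_of_nonneg hx0 (by norm_num) (by norm_num)]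
        norm_num
      have e2 : x ^ ((1 : ℝ) / 3) ≤ 2 := by
        calc x ^ ((1 : ℝ) / 3) ≤ 2 ^ ((1 : ℝ) / 3) := Real.rpow_le_rpow hx0 hx2 (by norm_num)
          _ ≤ 2 ^ (1 : ℝ) := Real.rpow_le_rpow_of_exponent_le (by norm_num) (by norm_num)
          _ = 2 := Real.rpow_one 2
      have e3 : x ≤ 2 * x ^ ((2 : ℝ) / 3) := by
        calc x = x ^ ((1 : ℝ) / 3) * x ^ ((2 : ℝ) / 3) := e1
          _ ≤ 2 * x ^ ((2 : ℝ) / 3) := mul_le_mul_of_nonneg_right e2 (Real.rpow_nonneg hx0 _)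
      linarith
    have h6 : (qq G 5) ^ 2 ≤ D * x ^ ((2 : ℝ) / 3) := by
      refine h1.trans ?_
      rw [hD, mul_assoc (625 * K1 5)]
      refine mul_le_mul_of_nonneg_left ?_ (by positivity)
      have e4 : 2 * K1 5 * (RR G 5) ^ ((2 : ℝ) / 3) ≤
          2 * K1 5 * (B ^ ((2 : ℝ) / 3) * x ^ ((2 : ℝ) / 3)) :=
        mul_le_mul_of_nonneg_left h3 (by positivity)
      nlinarith
    have h7 : rate 5 = 1 / 3 := by simp [rate]
    rw [h7]
    have h8 : (√D * x ^ ((1 : ℝ) / 3)) ^ 2 = D * x ^ ((2 : ℝ) / 3) := by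
      rw [mul_pow, Real.sq_sqrt hD0, ← Real.rpow_natCast (x ^ ((1 : ℝ) / 3)) 2, ← Real.rpow_mul hx0]
      norm_num
    have h9 : 0 ≤ qq G 5 := by unfold qq; positivity
    have h10 : 0 ≤ √D * x ^ ((1 : ℝ) / 3) := mul_nonneg (Real.sqrt_nonneg _) (Real.rpow_nonneg hx0 _)
    refine (pow_le_pow_iff_left₀ h9 h10 two_ne_zero).1 ?_
    rw [h8]
    exact h6
  · set A : ℝ := 4 * (k : ℝ) ^ (k - 3) * K1 k with hA
    have hK1 := K1_nonneg k
    have hA0 : 0 ≤ A := by positivity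
    refine ⟨A * B ^ rate k, mul_nonneg hA0 (Real.rpow_nonneg hB0 _), kap k, kap_pos k hk, ?_⟩
    intro V _ G hG hn
    set x : ℝ := pp G k + (Fintype.card V : ℝ) ^ (-kap k) with hx
    have hpp : 0 ≤ pp G k := by unfold pp; positivity
    have hx0 : 0 ≤ x := by positivity
    have h1 := qq_le hG k hk hn
    have h7 : rate k = 1 / ((k : ℝ) - 2) ^ 2 := by simp [rate, h4, h5]
    rw [← h7, ← hA] at h1
    refine h1.trans ?_
    have h8 : (RR G k) ^ rate k ≤ B ^ rate k * x ^ rate k := by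
      rw [← Real.mul_rpow hB0 hx0]
      exact Real.rpow_le_rpow (RR_nonneg hG k hk hn) (hRR V G hG hn) (rate_pos k hk).le
    calc A * (RR G k) ^ rate k ≤ A * (B ^ rate k * x ^ rate k) :=
          mul_le_mul_of_nonneg_left h8 hA0
      _ = A * B ^ rate k * x ^ rate k := by ring

/-- part (A) -/
theorem upper (k : ℕ) (hk : 4 ≤ k) : ∃ C : ℝ, ∀ p ∈ limitSet k,
    1 - p (starTree k hk) ≤ C * (p (pathTree k hk)) ^ rate k := by
  obtain ⟨C, hC, κ, hκ, hb⟩ := finite_bound k hk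
  refine ⟨C, ?_⟩
  rintro p ⟨V, hV, T, hT, hcard, hlim⟩
  have h1 : Tendsto (fun i => profile k (T i) (pathTree k hk)) atTop (𝓝 (p (pathTree k hk))) :=
    (tendsto_pi_nhds.1 hlim) _
  have h2 : Tendsto (fun i => profile k (T i) (starTree k hk)) atTop (𝓝 (p (starTree k hk))) :=
    (tendsto_pi_nhds.1 hlim) _
  have h3 : Tendsto (fun i => ((Fintype.card (V i) : ℕ) : ℝ) ^ (-κ)) atTop (𝓝 0) :=
    (tendsto_rpow_neg_atTop hκ).comp (tendsto_natCast_atTop_atTop.comp hcard)
  have h4 : Tendsto (fun i => C * (profile k (T i) (pathTree k hk) +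
      ((Fintype.card (V i) : ℕ) : ℝ) ^ (-κ)) ^ rate k) atTop
      (𝓝 (C * (p (pathTree k hk)) ^ rate k)) := by
    have h5 := (h1.add h3).rpow_const (p := rate k) (Or.inr (rate_pos k hk).le)
    rw [add_zero] at h5
    exact h5.const_mul C
  have h6 : Tendsto (fun i => 1 - profile k (T i) (starTree k hk)) atTop
      (𝓝 (1 - p (starTree k hk))) := h2.const_sub 1
  refine le_of_tendsto_of_tendsto h6 h4 ?_
  filter_upwards [hcard.eventually_ge_atTop k] with i hi
  rw [profile_star (hT i) k hk hi, profile_path]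
  exact hb (V i) (T i) (hT i) hi

end Pool.Agent.Helper49.PS
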