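import Pool.Agent.Helper49.PS.Five

namespace Pool.Agent.Helper49.PS

open SimpleGraph Finset
open scoped Classical

variable {V : Type} [Fintype V] {G : SimpleGraph V}

omit [Fintype V] in
lemma no_triangle (hG : G.IsTree) {a b c : V} (h1 : G.Adj a b) (h2 : G.Adj a c)
    (h3 : G.Adj b c) : False :=
  hG.isAcyclic.cliqueFree (n := 3) le_rfl {a, b, c} (is3Clique_triple_iff.2 ⟨h1, h2, h3⟩)

/-- the triples `v ~ u ~ w`, `w ≠ v` -/
noncomputable def tri (G : SimpleGraph V) : Finset (V × V × V) :=
  univ.filter (fun t => G.Adj t.1 t.2.1 ∧ G.Adj t.2.1 t.2.2 ∧ t.2.2 ≠ t.1)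

lemma mem_tri (t : V × V × V) :
    t ∈ tri G ↔ G.Adj t.1 t.2.1 ∧ G.Adj t.2.1 t.2.2 ∧ t.2.2 ≠ t.1 := by
  rw [tri, mem_filter]
  simp

lemma tri_le (hG : G.IsTree) (k : ℕ) (hk : 4 ≤ k) (t : V × V × V) (ht : t ∈ tri G) :
    (dg G t.1 - 1).choose (k - 3) ≤ ((nonstars G k).filter
      (fun U => t.1 ∈ U ∧ t.2.1 ∈ U ∧ t.2.2 ∈ U)).card := by
  obtain ⟨v, u, w⟩ := t
  rw [tri, mem_filter] at ht
  obtain ⟨-, hvu, huw, hwv⟩ := ht
  simp only at hvu huw hwv ⊢
  have huN : u ∈ nb G v := by rw [nb, mem_filter]; exact ⟨mem_univ _, hvu⟩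
  have hcard : ((nb G v).erase u).card = dg G v - 1 := by
    rw [Finset.card_erase_of_mem huN]; rfl
  have hdisj : ∀ A ∈ ((nb G v).erase u).powersetCard (k - 3), ∀ z ∈ A,
      z ∉ ({v, u, w} : Finset V) := by
    intro A hA z hz
    have h1 := (mem_powersetCard.1 hA).1 hz
    rw [mem_erase, nb, mem_filter] at h1
    simp only [mem_insert, mem_singleton, not_or]
    refine ⟨?_, h1.1, ?_⟩
    · rintro rfl; exact G.loopless.irrefl _ h1.2.2
    · rintro rfl
      exact no_triangle hG hvu h1.2.2 huw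
  have h2 : (dg G v - 1).choose (k - 3) =
      ((((nb G v).erase u).powersetCard (k - 3)).image (fun A => {v, u, w} ∪ A)).card := by
    rw [Finset.card_image_of_injOn, Finset.card_powersetCard, hcard]
    intro A hA B hB hAB
    have e1 : ({v, u, w} ∪ A) \ {v, u, w} = A := by
      rw [Finset.union_sdiff_cancel_left]
      rw [Finset.disjoint_left]
      intro z hz hzA
      exact hdisj A hA z hzA hz
    have e2 : ({v, u, w} ∪ B) \ {v, u, w} = B := by
      rw [Finset.union_sdiff_cancel_left]
      rw [Finset.disjoint_left]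
      intro z hz hzB
      exact hdisj B hB z hzB hz
    rw [← e1, ← e2]
    simp only at hAB
    rw [hAB]
  rw [h2]
  refine Finset.card_le_card ?_
  intro U hU
  rw [mem_image] at hU
  obtain ⟨A, hA, rfl⟩ := hU
  have hcard3 : ({v, u, w} : Finset V).card = 3 := by
    rw [Finset.card_eq_three]
    exact ⟨v, u, w, hvu.ne, hwv.symm, huw.ne, rfl⟩
  have hAc := (mem_powersetCard.1 hA).2
  have hd : Disjoint ({v, u, w} : Finset V) A := by
    rw [Finset.disjoint_left]
    intro z hz hzA
    exact hdisj A hA z hzA hz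
  have hAne : A.Nonempty := by
    rw [← Finset.card_pos]; omega
  obtain ⟨a, ha⟩ := hAne
  have ha1 := (mem_powersetCard.1 hA).1 ha
  rw [mem_erase, nb, mem_filter] at ha1
  rw [mem_filter, nonstars, mem_filter]
  refine ⟨⟨mem_univ _, ?_, ?_, ?_⟩, by simp, by simp, by simp⟩
  · rw [Finset.card_union_of_disjoint hd, hcard3, hAc]; omega
  · have h3 : (G.induce (((insert v (insert u A) : Finset V) : Set V) ∪ {w})).Connected := by
      refine connected_induce_union (G := G) (v := u) (w := w)
        (star_connected G _ ⟨v, by simp, ?_⟩).preconnected ?_ (by simp) (by simp) huw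
      · intro x hx hxv
        simp only [mem_insert] at hx
        rcases hx with rfl | rfl | hx
        · exact absurd rfl hxv
        · exact hvu
        · have h4 := (mem_powersetCard.1 hA).1 hx
          rw [mem_erase, nb, mem_filter] at h4
          exact h4.2.2
      · have := (star_connected G {w} ⟨w, by simp, by
          intro x hx hxv; exact absurd (by simpa using hx) hxv⟩).preconnected
        simpa using this
    have h4 : (({v, u, w} ∪ A : Finset V) : Set V) =
        ((insert v (insert u A) : Finset V) : Set V) ∪ {w} := by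
      ext x
      simp
      tauto
    rw [h4]
    exact h3
  · rintro ⟨c, -, hc⟩
    have hv : v ∈ ({v, u, w} ∪ A : Finset V) := by simp
    have hu : u ∈ ({v, u, w} ∪ A : Finset V) := by simp
    have hw : w ∈ ({v, u, w} ∪ A : Finset V) := by simp
    have haU : a ∈ ({v, u, w} ∪ A : Finset V) := by simp [ha]
    by_cases hcu : c = u
    · subst hcu
      have h5 := hc a haU ha1.1
      exact no_triangle hG h5 hvu.symm ha1.2.2.symm
    · by_cases hcv : c = v
      · subst hcv
        have h5 := hc w hw hwv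
        exact no_triangle hG h5 hvu huw.symm
      · exact no_triangle hG (hc v hv (Ne.symm hcv)) (hc u hu (Ne.symm hcu)) hvu

lemma le_nonstars (hG : G.IsTree) (k : ℕ) (hk : 4 ≤ k) :
    ∑ t ∈ tri G, (dg G t.1 - 1).choose (k - 3) ≤ (nonstars G k).card * k ^ 3 := by
  calc ∑ t ∈ tri G, (dg G t.1 - 1).choose (k - 3)
      ≤ ∑ t ∈ tri G, ((nonstars G k).filter
          (fun U => t.1 ∈ U ∧ t.2.1 ∈ U ∧ t.2.2 ∈ U)).card :=
        Finset.sum_le_sum fun t ht => tri_le hG k hk t ht
    _ = ∑ U ∈ nonstars G k, ((tri G).filter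
          (fun t => t.1 ∈ U ∧ t.2.1 ∈ U ∧ t.2.2 ∈ U)).card := by
        simp only [Finset.card_filter]
        rw [Finset.sum_comm]
    _ ≤ ∑ U ∈ nonstars G k, k ^ 3 := by
        refine Finset.sum_le_sum ?_
        intro U hU
        rw [nonstars, mem_filter] at hU
        have h1 : ((tri G).filter (fun t => t.1 ∈ U ∧ t.2.1 ∈ U ∧ t.2.2 ∈ U)) ⊆
            U ×ˢ (U ×ˢ U) := by
          intro t ht
          rw [mem_filter] at ht
          simp only [mem_product]
          exact ht.2
        refine (Finset.card_le_card h1).trans (le_of_eq ?_)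
        rw [Finset.card_product, Finset.card_product, hU.2.1]
        ring
    _ = _ := by simp

lemma pathsF_subset (k : ℕ) (hk : 4 ≤ k) : pathsF G k ⊆ nonstars G k := by
  intro U hU
  rw [pathsF, mem_filter] at hU
  rw [nonstars, mem_filter]
  refine ⟨mem_univ _, card_of_iso hU.2, ?_, ?_⟩
  · obtain ⟨-, ⟨e⟩⟩ := hU
    obtain ⟨k', rfl⟩ : ∃ k', k = k' + 1 := ⟨k - 1, by omega⟩
    exact e.symm.connected_iff.1 (pathGraph_connected k')
  · rintro ⟨c, hcU, hc⟩
    obtain ⟨-, ⟨e⟩⟩ := hU
    have hadj : ∀ i : Fin k, i ≠ e ⟨c, hcU⟩ → (pathGraph k).Adj (e ⟨c, hcU⟩) i := by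
      intro i hi
      have h1 : (e.symm i).1 ≠ c := by
        intro h
        apply hi
        have : e.symm i = ⟨c, hcU⟩ := Subtype.ext h
        rw [← this, e.apply_symm_apply]
      have h2 := hc (e.symm i).1 (e.symm i).2 h1
      have h3 : (G.induce (U : Set V)).Adj ⟨c, hcU⟩ (e.symm i) := h2
      rw [← e.map_adj_iff, e.apply_symm_apply] at h3
      exact h3
    by_cases h : 2 ≤ (e ⟨c, hcU⟩).1
    · have h1 := hadj ⟨0, by omega⟩ (by intro h'; rw [← h'] at h; simp at h)
      rw [pathGraph_adj] at h1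
      simp only at h1
      omega
    · have h1 := hadj ⟨3, by omega⟩ (by intro h'; rw [← h'] at h; simp at h)
      rw [pathGraph_adj] at h1
      simp only at h1
      omega

end Pool.Agent.Helper49.PS
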