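import Pool.Agent.Helper49.PS.Count

namespace Pool.Agent.Helper49.PS

open SimpleGraph Finset
open scoped Classical

lemma holder3 {ι : Type} (s : Finset ι) (f g h : ι → ℝ) (hf : ∀ i ∈ s, 0 ≤ f i)
    (hg : ∀ i ∈ s, 0 ≤ g i) (hh : ∀ i ∈ s, 0 ≤ h i) (x y z : ℝ) (hx : 0 ≤ x) (hy : 0 ≤ y)
    (hz : 0 ≤ z) (hxyz : x + y + z = 1) (A B C : ℝ) (hA : 0 < A) (hB : 0 < B) (hC : 0 < C)
    (hfA : ∑ i ∈ s, f i ≤ A) (hgB : ∑ i ∈ s, g i ≤ B) (hhC : ∑ i ∈ s, h i ≤ C) :
    ∑ i ∈ s, f i ^ x * g i ^ y * h i ^ z ≤ A ^ x * B ^ y * C ^ z := by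
  have h1 : ∀ i ∈ s, f i ^ x * g i ^ y * h i ^ z ≤
      A ^ x * B ^ y * C ^ z * (x * (f i / A) + y * (g i / B) + z * (h i / C)) := by
    intro i hi
    have h2 := Real.geom_mean_le_arith_mean3_weighted hx hy hz
      (div_nonneg (hf i hi) hA.le) (div_nonneg (hg i hi) hB.le) (div_nonneg (hh i hi) hC.le) hxyz
    rw [Real.div_rpow (hf i hi) hA.le, Real.div_rpow (hg i hi) hB.le,
      Real.div_rpow (hh i hi) hC.le] at h2
    have hAx : 0 < A ^ x := Real.rpow_pos_of_pos hA _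
    have hBy : 0 < B ^ y := Real.rpow_pos_of_pos hB _
    have hCz : 0 < C ^ z := Real.rpow_pos_of_pos hC _
    have h3 : f i ^ x * g i ^ y * h i ^ z =
        A ^ x * B ^ y * C ^ z * (f i ^ x / A ^ x * (g i ^ y / B ^ y) * (h i ^ z / C ^ z)) := by
      field_simp
    rw [h3]
    exact mul_le_mul_of_nonneg_left h2 (by positivity)
  refine (Finset.sum_le_sum h1).trans ?_
  rw [← Finset.mul_sum]
  have h4 : ∑ i ∈ s, (x * (f i / A) + y * (g i / B) + z * (h i / C)) ≤ 1 := by
    rw [Finset.sum_add_distrib, Finset.sum_add_distrib, ← Finset.mul_sum, ← Finset.mul_sum,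
      ← Finset.mul_sum, ← Finset.sum_div, ← Finset.sum_div, ← Finset.sum_div]
    have ha : (∑ i ∈ s, f i) / A ≤ 1 := (div_le_one hA).2 hfA
    have hb : (∑ i ∈ s, g i) / B ≤ 1 := (div_le_one hB).2 hgB
    have hc : (∑ i ∈ s, h i) / C ≤ 1 := (div_le_one hC).2 hhC
    nlinarith [mul_le_mul_of_nonneg_left ha hx, mul_le_mul_of_nonneg_left hb hy,
      mul_le_mul_of_nonneg_left hc hz]
  have hpos : 0 ≤ A ^ x * B ^ y * C ^ z := by positivity
  calc A ^ x * B ^ y * C ^ z * _ ≤ A ^ x * B ^ y * C ^ z * 1 :=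
        mul_le_mul_of_nonneg_left h4 hpos
    _ = _ := mul_one _

variable {V : Type} [Fintype V] (G : SimpleGraph V)

omit [Fintype V] in
lemma parent_unique {G : SimpleGraph V} (hG : G.IsTree) (r u v w : V) (h : G.Adj u v)
    (h' : G.Adj u w)
    (hd : G.dist r u = G.dist r v + 1) (hd' : G.dist r u = G.dist r w + 1) : v = w := by
  obtain ⟨p, hp, hpl⟩ := (hG.connected v r).exists_path_of_dist
  obtain ⟨q, hq, hql⟩ := (hG.connected w r).exists_path_of_dist
  have h1 : (Walk.cons h p).IsPath := by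
    apply Walk.isPath_of_length_eq_dist
    rw [Walk.length_cons, hpl, G.dist_comm, ← hd, G.dist_comm]
  have h2 : (Walk.cons h' q).IsPath := by
    apply Walk.isPath_of_length_eq_dist
    rw [Walk.length_cons, hql, G.dist_comm, ← hd', G.dist_comm]
  have h3 : w ∈ (Walk.cons h p).support := by
    have : (Walk.cons h p) = (Walk.cons h' q) := by
      have := (hG.isAcyclic.subsingleton_path u r).elim ⟨_, h1⟩ ⟨_, h2⟩
      simpa using this
    rw [this]
    simp
  have := hG.isAcyclic.eq_snd_of_adj_start h1 h' h3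
  simpa using this.symm

/-- the pairs (parent, child) -/
noncomputable def prs (r : V) : Finset (V × V) :=
  univ.filter (fun p => G.Adj p.1 p.2 ∧ G.dist r p.2 = G.dist r p.1 + 1)

lemma sum_child {G : SimpleGraph V} (hG : G.IsTree) (r : V) (f : V → ℝ) (hf : ∀ v, 0 ≤ f v) :
    ∑ p ∈ prs G r, f p.2 ≤ ∑ v, f v := by
  have hinj : Set.InjOn (fun p : V × V => p.2) (prs G r : Set (V × V)) := by
    rintro ⟨a, b⟩ hab ⟨c, d⟩ hcd hbd
    simp only [prs, coe_filter, mem_univ, true_and, Set.mem_ofPred_eq] at hab hcd hbd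
    subst hbd
    have := parent_unique hG r b a c hab.1.symm hcd.1.symm hab.2 hcd.2
    rw [this]
  rw [← Finset.sum_image (g := fun p : V × V => p.2) (f := f) hinj]
  exact Finset.sum_le_sum_of_subset_of_nonneg (subset_univ _) (fun v _ _ => hf v)

lemma sum_parent (r : V) (f : V → ℝ) (hf : ∀ v, 0 ≤ f v) :
    ∑ p ∈ prs G r, f p.1 ≤ ∑ v, (dg G v : ℝ) * f v := by
  rw [prs, Finset.sum_filter, Fintype.sum_prod_type]
  refine Finset.sum_le_sum ?_
  intro v _
  dsimp only
  rw [← Finset.sum_filter, Finset.sum_const, nsmul_eq_mul]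
  refine mul_le_mul_of_nonneg_right ?_ (hf v)
  rw [dg]
  norm_cast
  refine Finset.card_le_card ?_
  intro u hu
  rw [mem_filter] at hu ⊢
  exact ⟨mem_univ _, hu.2.1⟩

lemma sum_nbrs {G : SimpleGraph V} (hG : G.IsTree) (r : V) (φ : V → V → ℝ)
    (hφ : ∀ v u, 0 ≤ φ v u) (P : V → V → Prop) :
    ∑ v, ∑ u ∈ univ.filter (fun u => G.Adj v u ∧ P v u), φ v u ≤
      ∑ p ∈ prs G r, φ p.1 p.2 + ∑ p ∈ (prs G r).filter (fun p => P p.2 p.1), φ p.2 p.1 := by
  have h1 : ∑ v, ∑ u ∈ univ.filter (fun u => G.Adj v u ∧ P v u), φ v u ≤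
      ∑ v, ∑ u, ((if (v, u) ∈ prs G r then φ v u else 0) +
        (if (u, v) ∈ (prs G r).filter (fun p => P p.2 p.1) then φ v u else 0)) := by
    refine Finset.sum_le_sum ?_
    intro v _
    rw [Finset.sum_filter]
    refine Finset.sum_le_sum ?_
    intro u _
    by_cases h : G.Adj v u ∧ P v u
    · rw [if_pos h]
      rcases hG.dist_eq_dist_add_one_of_adj r h.1 with h2 | h2
      · have h3 : (u, v) ∈ (prs G r).filter (fun p => P p.2 p.1) := by
          rw [mem_filter, prs, mem_filter]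
          exact ⟨⟨mem_univ _, h.1.symm, h2⟩, h.2⟩
        rw [if_pos h3]
        have : (0 : ℝ) ≤ (if (v, u) ∈ prs G r then φ v u else 0) := by
          split_ifs
          · exact hφ _ _
          · exact le_rfl
        linarith
      · have h3 : (v, u) ∈ prs G r := by
          rw [prs, mem_filter]
          exact ⟨mem_univ _, h.1, h2⟩
        rw [if_pos h3]
        have : (0 : ℝ) ≤ (if (u, v) ∈ (prs G r).filter (fun p => P p.2 p.1) then φ v u else 0) := by
          split_ifs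
          · exact hφ _ _
          · exact le_rfl
        linarith
    · rw [if_neg h]
      have h4 : (0 : ℝ) ≤ (if (v, u) ∈ prs G r then φ v u else 0) := by
        split_ifs
        · exact hφ _ _
        · exact le_rfl
      have h5 : (0 : ℝ) ≤ (if (u, v) ∈ (prs G r).filter (fun p => P p.2 p.1) then φ v u else 0) := by
        split_ifs
        · exact hφ _ _
        · exact le_rfl
      linarith
  refine h1.trans (le_of_eq ?_)
  simp only [Finset.sum_add_distrib]
  congr 1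
  · rw [← Fintype.sum_prod_type' (f := fun v u => if (v, u) ∈ prs G r then φ v u else 0)]
    rw [← Finset.sum_filter]
    refine Finset.sum_congr ?_ (fun _ _ => rfl)
    ext p
    simp
  · rw [Finset.sum_comm]
    rw [← Fintype.sum_prod_type' (f := fun u v =>
      if (u, v) ∈ (prs G r).filter (fun p => P p.2 p.1) then φ v u else 0)]
    rw [← Finset.sum_filter]
    refine Finset.sum_congr ?_ (fun _ _ => rfl)
    ext p
    simp

/-- the power moment of the degrees -/
noncomputable def mom (j : ℕ) : ℝ := ∑ v, (dg G v : ℝ) ^ j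

lemma mom_one_le {G : SimpleGraph V} (hG : G.IsTree) : mom G 1 ≤ 2 * (Fintype.card V : ℝ) := by
  obtain ⟨r⟩ := hG.connected.nonempty
  have h0 := sum_nbrs hG r (fun _ _ => (1 : ℝ)) (fun _ _ => zero_le_one) (fun _ _ => True)
  refine le_trans (le_of_eq ?_) (h0.trans ?_)
  · rw [mom]
    refine Finset.sum_congr rfl ?_
    intro v _
    simp [dg]
  have h2 := sum_child hG r (fun _ => 1) (fun _ => zero_le_one)
  simp only [Finset.filter_true, Finset.sum_const, nsmul_eq_mul, mul_one,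
    Finset.card_univ] at h2 ⊢
  linarith

lemma dg_pos {G : SimpleGraph V} (hG : G.IsTree) (hn : 2 ≤ Fintype.card V) (v : V) :
    1 ≤ dg G v := by
  have : Nontrivial V := Fintype.one_lt_card_iff_nontrivial.1 (by omega)
  obtain ⟨u, hu⟩ := hG.connected.preconnected.exists_adj_of_nontrivial v
  rw [dg, Nat.succ_le_iff, Finset.card_pos]
  exact ⟨u, by rw [mem_filter]; exact ⟨mem_univ _, hu⟩⟩

lemma card_le_mom {G : SimpleGraph V} (hG : G.IsTree) (hn : 2 ≤ Fintype.card V) (j : ℕ) :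
    (Fintype.card V : ℝ) ≤ mom G j := by
  rw [mom]
  have : (Fintype.card V : ℝ) = ∑ v : V, (1 : ℝ) := by simp
  rw [this]
  refine Finset.sum_le_sum ?_
  intro v _
  have h1 : (1 : ℝ) ≤ dg G v := by exact_mod_cast dg_pos hG hn v
  exact one_le_pow₀ h1

/-- interpolation of moments -/
lemma mom_interp {G : SimpleGraph V} (hG : G.IsTree) (hn : 2 ≤ Fintype.card V) (j l : ℕ)
    (h1j : 1 ≤ j) (hjl : j ≤ l) (hl : 2 ≤ l) :
    mom G j ≤ (2 * (Fintype.card V : ℝ)) ^ (((l : ℝ) - j) / (l - 1)) *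
      (mom G l) ^ (((j : ℝ) - 1) / (l - 1)) := by
  have hl1 : (0 : ℝ) < (l : ℝ) - 1 := by
    have : (2 : ℝ) ≤ l := by exact_mod_cast hl
    linarith
  have hjl' : (j : ℝ) ≤ l := by exact_mod_cast hjl
  have h1j' : (1 : ℝ) ≤ j := by exact_mod_cast h1j
  have hnpos : (0 : ℝ) < Fintype.card V := by
    have : (2 : ℝ) ≤ Fintype.card V := by exact_mod_cast hn
    linarith
  have hSpos : 0 < mom G l := lt_of_lt_of_le hnpos (card_le_mom hG hn l)
  have key := holder3 (univ : Finset V) (fun v => (dg G v : ℝ)) (fun v => (dg G v : ℝ) ^ l)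
    (fun _ => 1 / (Fintype.card V : ℝ)) (fun _ _ => by positivity) (fun _ _ => by positivity)
    (fun _ _ => by positivity) (((l : ℝ) - j) / (l - 1)) (((j : ℝ) - 1) / (l - 1)) 0
    (div_nonneg (by linarith) hl1.le) (div_nonneg (by linarith) hl1.le) le_rfl
    (by field_simp; ring) (2 * (Fintype.card V : ℝ)) (mom G l) 1 (by positivity) hSpos one_pos
    (by have := mom_one_le hG; simpa [mom] using this) le_rfl (by simp; field_simp; rfl)
  simp only [Real.rpow_zero, mul_one] at key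
  refine le_trans (le_of_eq ?_) key
  rw [mom]
  refine Finset.sum_congr rfl ?_
  intro v _
  have hd : (0 : ℝ) < dg G v := by exact_mod_cast dg_pos hG hn v
  rw [← Real.rpow_natCast (dg G v : ℝ) l, ← Real.rpow_mul hd.le, ← Real.rpow_add hd,
    ← Real.rpow_natCast (dg G v : ℝ) j]
  congr 1
  field_simp
  ring

lemma down_bound {G : SimpleGraph V} (hG : G.IsTree) (hn : 2 ≤ Fintype.card V) (r : V) (m : ℕ)
    (hm : 2 ≤ m) :
    ∑ p ∈ prs G r, (dg G p.2 : ℝ) * (dg G p.1 : ℝ) ^ (m - 1) ≤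
      (2 * (Fintype.card V : ℝ)) ^ (1 / (m : ℝ) ^ 2) * (mom G (m + 1)) ^ (1 - 1 / (m : ℝ) ^ 2) := by
  have hm' : (2 : ℝ) ≤ m := by exact_mod_cast hm
  have hnpos : (0 : ℝ) < Fintype.card V := by
    have : (2 : ℝ) ≤ Fintype.card V := by exact_mod_cast hn
    linarith
  have hSpos : 0 < mom G (m + 1) := lt_of_lt_of_le hnpos (card_le_mom hG hn _)
  have key := holder3 (prs G r) (fun p => (dg G p.2 : ℝ) ^ (m + 1)) (fun p => (dg G p.2 : ℝ))
    (fun p => (dg G p.1 : ℝ) ^ m) (fun _ _ => by positivity) (fun _ _ => by positivity)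
    (fun _ _ => by positivity) (((m : ℝ) - 1) / m ^ 2) (1 / (m : ℝ) ^ 2) (((m : ℝ) - 1) / m)
    (div_nonneg (by linarith) (by positivity)) (by positivity)
    (div_nonneg (by linarith) (by positivity)) (by field_simp; ring)
    (mom G (m + 1)) (2 * (Fintype.card V : ℝ)) (mom G (m + 1)) hSpos (by positivity) hSpos
    (sum_child hG r (fun v => (dg G v : ℝ) ^ (m + 1)) (fun _ => by positivity))
    ((sum_child hG r (fun v => (dg G v : ℝ)) (fun _ => by positivity)).trans
      (by have := mom_one_le hG; simpa [mom] using this))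
    ((sum_parent G r (fun v => (dg G v : ℝ) ^ m) (fun _ => by positivity)).trans
      (le_of_eq (by rw [mom]; refine Finset.sum_congr rfl (fun v _ => by ring))))
  have h1 : ∑ p ∈ prs G r, (dg G p.2 : ℝ) * (dg G p.1 : ℝ) ^ (m - 1) =
      ∑ i ∈ prs G r, ((dg G i.2 : ℝ) ^ (m + 1)) ^ (((m : ℝ) - 1) / m ^ 2) *
        (dg G i.2 : ℝ) ^ (1 / (m : ℝ) ^ 2) * ((dg G i.1 : ℝ) ^ m) ^ (((m : ℝ) - 1) / m) := by
    refine Finset.sum_congr rfl ?_
    intro p _
    have hd1 : (0 : ℝ) < dg G p.1 := by exact_mod_cast dg_pos hG hn _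
    have hd2 : (0 : ℝ) < dg G p.2 := by exact_mod_cast dg_pos hG hn _
    rw [← Real.rpow_natCast (dg G p.2 : ℝ) (m + 1), ← Real.rpow_mul hd2.le,
      ← Real.rpow_add hd2, ← Real.rpow_natCast (dg G p.1 : ℝ) m, ← Real.rpow_mul hd1.le,
      ← Real.rpow_natCast (dg G p.1 : ℝ) (m - 1)]
    have e1 : ((m + 1 : ℕ) : ℝ) * (((m : ℝ) - 1) / m ^ 2) + 1 / (m : ℝ) ^ 2 = 1 := by
      push_cast
      field_simp
      ring
    have e2 : (m : ℝ) * (((m : ℝ) - 1) / m) = ((m - 1 : ℕ) : ℝ) := by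
      rw [Nat.cast_sub (by omega)]
      field_simp
      simp
    rw [e1, e2, Real.rpow_one]
  rw [h1]
  refine key.trans (le_of_eq ?_)
  have e3 : (mom G (m + 1)) ^ (1 - 1 / (m : ℝ) ^ 2) =
      (mom G (m + 1)) ^ (((m : ℝ) - 1) / m ^ 2) * (mom G (m + 1)) ^ (((m : ℝ) - 1) / m) := by
    rw [← Real.rpow_add hSpos]
    congr 1
    field_simp
    ring
  rw [e3]
  ring

end Pool.Agent.Helper49.PS
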