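import Pool.Agent.Helper49.PS.Deg
import Pool.Agent.Helper49.PS.Limit

namespace Pool.Agent.Helper49.PS

open SimpleGraph Finset Filter Topology
open scoped Classical

lemma choose_low (k D n r : ℕ) (h : D ≤ k * (n + 1 - r)) :
    D ^ r ≤ k ^ r * (r.factorial * n.choose r) := by
  calc D ^ r ≤ (k * (n + 1 - r)) ^ r := Nat.pow_le_pow_left h r
    _ = k ^ r * (n + 1 - r) ^ r := by rw [mul_pow]
    _ ≤ k ^ r * (n.descFactorial r) := Nat.mul_le_mul_left _ (Nat.pow_sub_le_descFactorial n r)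
    _ = _ := by rw [Nat.descFactorial_eq_factorial_mul_choose]

/-- constant -/
noncomputable def A1 (k : ℕ) : ℝ := (k : ℝ) ^ (k - 1) * (k - 1).factorial * k

/-- constant -/
noncomputable def A2 (k : ℕ) : ℝ := (k : ℝ) ^ (k - 3) * (k - 3).factorial * k ^ 3

lemma A1_pos (k : ℕ) (hk : 4 ≤ k) : 0 < A1 k := by
  have : (0 : ℝ) < k := by exact_mod_cast (by omega : 0 < k)
  unfold A1; positivity

lemma A2_pos (k : ℕ) (hk : 4 ≤ k) : 0 < A2 k := by
  have : (0 : ℝ) < k := by exact_mod_cast (by omega : 0 < k)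
  unfold A2; positivity

lemma K2_pos (k : ℕ) : 0 < K2 k := by unfold K2; positivity

variable (P : Par)

lemma conF_low (k : ℕ) (hk : 4 ≤ k) (hD : k ≤ P.D) :
    (P.N : ℝ) * (P.D : ℝ) ^ (k - 1) ≤ A1 k * (conF (TT P) k).card := by
  have h1 := conF_lower P k (by omega)
  have h2 : P.D ^ (k - 1) ≤ k ^ (k - 1) * ((k - 1).factorial * P.D.choose (k - 1)) := by
    refine choose_low k P.D P.D (k - 1) ?_
    obtain ⟨d, hd⟩ := Nat.exists_eq_add_of_le hD
    have e : P.D + 1 - (k - 1) = d + 2 := by omega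
    rw [e, hd]
    nlinarith
  have h3 : P.N * P.D ^ (k - 1) ≤ k ^ (k - 1) * (k - 1).factorial * k * (conF (TT P) k).card := by
    calc P.N * P.D ^ (k - 1) ≤ P.N * (k ^ (k - 1) * ((k - 1).factorial * P.D.choose (k - 1))) :=
          Nat.mul_le_mul_left _ h2
      _ = k ^ (k - 1) * (k - 1).factorial * (P.N * P.D.choose (k - 1)) := by ring
      _ ≤ k ^ (k - 1) * (k - 1).factorial * ((conF (TT P) k).card * k) := Nat.mul_le_mul_left _ h1
      _ = _ := by ring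
  unfold A1
  exact_mod_cast h3

lemma nonstars_low (k : ℕ) (hk : 4 ≤ k) (hD : k ≤ P.D) :
    (P.N : ℝ) * (P.M * P.L) * (P.D : ℝ) ^ (k - 3) ≤ A2 k * (nonstars (TT P) k).card := by
  have h1 := nonstars_lower P k hk
  have h2 : P.D ^ (k - 3) ≤ k ^ (k - 3) * ((k - 3).factorial * (P.D - 1).choose (k - 3)) := by
    refine choose_low k P.D (P.D - 1) (k - 3) ?_
    obtain ⟨d, hd⟩ := Nat.exists_eq_add_of_le hD
    have e : P.D - 1 + 1 - (k - 3) = d + 3 := by omega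
    rw [e, hd]
    nlinarith
  have h3 : P.N * (P.M * P.L) * P.D ^ (k - 3) ≤
      k ^ (k - 3) * (k - 3).factorial * k ^ 3 * (nonstars (TT P) k).card := by
    calc P.N * (P.M * P.L) * P.D ^ (k - 3) ≤
          P.N * (P.M * P.L) * (k ^ (k - 3) * ((k - 3).factorial * (P.D - 1).choose (k - 3))) :=
          Nat.mul_le_mul_left _ h2
      _ = k ^ (k - 3) * (k - 3).factorial * (P.N * (P.M * P.L) * (P.D - 1).choose (k - 3)) := by
          ring
      _ ≤ k ^ (k - 3) * (k - 3).factorial * ((nonstars (TT P) k).card * k ^ 3) :=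
          Nat.mul_le_mul_left _ h1
      _ = _ := by ring
  unfold A2
  exact_mod_cast h3

lemma mom_up (k : ℕ) (hk : 4 ≤ k) (hD : k ≤ P.D) (hg : P.g = 2 * k)
    (hML : P.M * P.L ^ (k - 1) ≤ P.D ^ (k - 1)) :
    mom (TT P) (k - 1) ≤ 2 ^ (k + 2) * (P.N * (P.D : ℝ) ^ (k - 1)) := by
  refine (mom_TT P (k - 1) (by omega)).trans ?_
  set X : ℝ := (P.D : ℝ) ^ (k - 1) with hX
  have hD1 : (4 : ℝ) ≤ P.D := by exact_mod_cast hk.trans hD
  have hDX : (P.D : ℝ) ≤ X := by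
    calc (P.D : ℝ) = (P.D : ℝ) ^ 1 := (pow_one _).symm
      _ ≤ X := pow_le_pow_right₀ (by linarith) (by omega)
  have hkD : (k : ℝ) ≤ P.D := by exact_mod_cast hD
  have h1 : ((P.D : ℝ) + 2) ^ (k - 1) ≤ 2 ^ (k - 1) * X := by
    rw [hX, ← mul_pow]
    exact pow_le_pow_left₀ (by positivity) (by linarith) _
  have hT : (8 : ℝ) ≤ 2 ^ (k - 1) := by
    calc (8 : ℝ) = 2 ^ 3 := by norm_num
      _ ≤ 2 ^ (k - 1) := pow_le_pow_right₀ (by norm_num) (by omega)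
  have hX0 : 0 ≤ X := by positivity
  have h2 : (P.g : ℝ) * 2 ^ (k - 1) ≤ 2 * 2 ^ (k - 1) * X := by
    rw [hg]
    push_cast
    nlinarith
  have hMLr : (P.M : ℝ) * (P.L : ℝ) ^ (k - 1) ≤ X := by
    rw [hX]; exact_mod_cast hML
  have hMD : (P.M : ℝ) ≤ P.D := by exact_mod_cast P.hMD
  have h3 : (P.M : ℝ) * ((P.L : ℝ) + 1) ^ (k - 1) ≤ 2 * 2 ^ (k - 1) * X := by
    have h4 : ((P.L : ℝ) + 1) ^ (k - 1) ≤ 2 ^ (k - 1) * ((P.L : ℝ) ^ (k - 1) + 1) := by
      rcases Nat.eq_zero_or_pos P.L with h0 | h0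
      · rw [h0]
        have : (0 : ℝ) ^ (k - 1) = 0 := zero_pow (by omega)
        simp [this]
        linarith
      · have h5 : (1 : ℝ) ≤ P.L := by exact_mod_cast h0
        calc ((P.L : ℝ) + 1) ^ (k - 1) ≤ (2 * P.L) ^ (k - 1) :=
              pow_le_pow_left₀ (by positivity) (by linarith) _
          _ = 2 ^ (k - 1) * (P.L : ℝ) ^ (k - 1) := by rw [mul_pow]
          _ ≤ _ := by
              refine mul_le_mul_of_nonneg_left ?_ (by positivity)
              linarith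
    calc (P.M : ℝ) * ((P.L : ℝ) + 1) ^ (k - 1) ≤ P.M * (2 ^ (k - 1) * ((P.L : ℝ) ^ (k - 1) + 1)) :=
          mul_le_mul_of_nonneg_left h4 (by positivity)
      _ = 2 ^ (k - 1) * (P.M * (P.L : ℝ) ^ (k - 1) + P.M) := by ring
      _ ≤ 2 ^ (k - 1) * (X + X) := by
          refine mul_le_mul_of_nonneg_left ?_ (by positivity)
          linarith
      _ = _ := by ring
  have h5 : (P.M : ℝ) * P.L ≤ X := by
    refine le_trans ?_ hMLr
    refine mul_le_mul_of_nonneg_left ?_ (by positivity)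
    rcases Nat.eq_zero_or_pos P.L with h0 | h0
    · rw [h0]; simp
    · have h5 : (1 : ℝ) ≤ P.L := by exact_mod_cast h0
      calc (P.L : ℝ) = (P.L : ℝ) ^ 1 := (pow_one _).symm
        _ ≤ _ := pow_le_pow_right₀ h5 (by omega)
  have h6 : ((P.D : ℝ) + 2) ^ (k - 1) + P.g * 2 ^ (k - 1) + P.M * ((P.L : ℝ) + 1) ^ (k - 1) + P.D +
      P.M * P.L ≤ 2 ^ (k + 2) * X := by
    have e : (2 : ℝ) ^ (k + 2) = 8 * 2 ^ (k - 1) := by
      have : k + 2 = 3 + (k - 1) := by omega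
      rw [this, pow_add]
      norm_num
    rw [e]
    nlinarith
  have hN : (0 : ℝ) ≤ P.N := by positivity
  nlinarith [mul_le_mul_of_nonneg_left h6 hN]

lemma card_ge (k : ℕ) (hD : k ≤ P.D) : k ≤ Fintype.card (VV P) := by
  rw [card_VV]
  have := P.hN
  nlinarith [Nat.zero_le (P.M * P.L), P.hg]

lemma conF_up (k : ℕ) (hk : 4 ≤ k) (hD : k ≤ P.D) (hg : P.g = 2 * k)
    (hML : P.M * P.L ^ (k - 1) ≤ P.D ^ (k - 1)) :
    ((conF (TT P) k).card : ℝ) ≤ K2 k * 2 ^ (k + 2) * (P.N * (P.D : ℝ) ^ (k - 1)) := by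
  refine (conF_le_K2 (TT_tree P) k hk (card_ge P k hD)).trans ?_
  rw [mul_assoc]
  exact mul_le_mul_of_nonneg_left (mom_up P k hk hD hg hML) (K2_pos k).le

lemma pp_up (k : ℕ) (hk : 4 ≤ k) (hgood : Good P k) (hD : k ≤ P.D) (hg : P.g = 2 * k) :
    pp (TT P) k * (P.D : ℝ) ^ (k - 1) ≤
      2 * (2 * k + 1) * A1 k * (3 * P.D + P.M * P.L) := by
  have hZ := conF_pos (TT_tree P) k hk (card_ge P k hD)
  have h1 := pathsF_le P hgood (by omega)
  have h2 := conF_low P k hk hD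
  have hN : (0 : ℝ) < P.N := by exact_mod_cast P.hN
  have h3 : ((pathsF (TT P) k).card : ℝ) ≤ 2 * ((2 * k + 1) * (P.N * (3 * P.D + P.M * P.L))) := by
    have h4 : ((pathsF (TT P) k).card : ℝ) ≤ 2 * ((2 * k + 1) * (P.N * (P.g + P.D + P.M * P.L))) := by
      rw [card_VV] at h1
      exact_mod_cast h1
    refine h4.trans ?_
    have h5 : (P.g : ℝ) ≤ 2 * P.D := by
      rw [hg]
      push_cast
      have : (k : ℝ) ≤ P.D := by exact_mod_cast hD
      linarith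
    gcongr
    linarith
  rw [pp, div_mul_eq_mul_div, div_le_iff₀ hZ]
  have hw : (0 : ℝ) ≤ 3 * P.D + P.M * P.L := by positivity
  refine le_of_mul_le_mul_left ?_ hN
  calc (P.N : ℝ) * ((pathsF (TT P) k).card * (P.D : ℝ) ^ (k - 1))
      = (pathsF (TT P) k).card * (P.N * (P.D : ℝ) ^ (k - 1)) := by ring
    _ ≤ (2 * ((2 * k + 1) * (P.N * (3 * P.D + P.M * P.L)))) *
          (A1 k * (conF (TT P) k).card) := by
        refine mul_le_mul h3 h2 (by positivity) (by positivity)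
    _ = _ := by ring

lemma qq_low (k : ℕ) (hk : 4 ≤ k) (hD : k ≤ P.D) (hg : P.g = 2 * k)
    (hML : P.M * P.L ^ (k - 1) ≤ P.D ^ (k - 1)) :
    (P.M : ℝ) * P.L ≤ qq (TT P) k * (A2 k * (K2 k * 2 ^ (k + 2))) * (P.D : ℝ) ^ 2 := by
  have hZ := conF_pos (TT_tree P) k hk (card_ge P k hD)
  have h1 := nonstars_low P k hk hD
  have h2 := conF_up P k hk hD hg hML
  have hN : (0 : ℝ) < P.N := by exact_mod_cast P.hN
  have hD0 : (0 : ℝ) < P.D := by exact_mod_cast (by omega : 0 < P.D)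
  have hq : 0 ≤ qq (TT P) k := by unfold qq; positivity
  have e : ((nonstars (TT P) k).card : ℝ) = qq (TT P) k * (conF (TT P) k).card := by
    rw [qq]; field_simp
  rw [e] at h1
  have hA := (A2_pos k hk).le
  have h3 : (P.N : ℝ) * (P.M * P.L) * (P.D : ℝ) ^ (k - 3) ≤
      A2 k * (qq (TT P) k * (K2 k * 2 ^ (k + 2) * (P.N * (P.D : ℝ) ^ (k - 1)))) := by
    refine h1.trans ?_
    gcongr
  have e2 : (P.D : ℝ) ^ (k - 1) = (P.D : ℝ) ^ (k - 3) * (P.D : ℝ) ^ 2 := by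
    rw [← pow_add]; congr 1; omega
  rw [e2] at h3
  have hpos : 0 < (P.N : ℝ) * (P.D : ℝ) ^ (k - 3) := by positivity
  refine le_of_mul_le_mul_left ?_ hpos
  calc (P.N : ℝ) * (P.D : ℝ) ^ (k - 3) * (P.M * P.L) =
        (P.N : ℝ) * (P.M * P.L) * (P.D : ℝ) ^ (k - 3) := by ring
    _ ≤ _ := h3
    _ = _ := by ring

lemma qq_low_four (hN2 : 2 ≤ P.N) (hD : 4 ≤ P.D) (hg : P.g = 2 * 4)
    (hML : P.M * P.L ^ 3 ≤ P.D ^ 3) :
    1 ≤ qq (TT P) 4 * (4 * (K2 4 * 2 ^ 6)) * (P.D : ℝ) ^ 2 := by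
  have hZ := conF_pos (TT_tree P) 4 le_rfl (card_ge P 4 hD)
  have h2 := conF_up P 4 le_rfl hD hg hML
  have hN : (0 : ℝ) < P.N := by exact_mod_cast P.hN
  have hD0 : (0 : ℝ) < P.D := by exact_mod_cast (by omega : 0 < P.D)
  have hq : 0 ≤ qq (TT P) 4 := by unfold qq; positivity
  have e : ((nonstars (TT P) 4).card : ℝ) = qq (TT P) 4 * (conF (TT P) 4).card := by
    rw [qq]; field_simp
  have h3 := card_le_pathsF (TT_tree P).connected 4 (by norm_num)
    (Sum.inl (⟨1, by omega⟩, ⟨0, P.hg⟩) : VV P) (Sum.inl (⟨0, by omega⟩, ⟨0, P.hg⟩) : VV P) (by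
      have := dist_ss P (Sum.inl (⟨1, by omega⟩, ⟨0, P.hg⟩) : VV P)
        (Sum.inl (⟨0, by omega⟩, ⟨0, P.hg⟩) : VV P)
      simp only [ss] at this
      omega)
  have h4 := Finset.card_le_card (pathsF_subset (G := TT P) 4 le_rfl)
  have h5 : P.N * P.D ≤ (nonstars (TT P) 4).card * 4 := by
    refine le_trans ?_ (h3.trans (Nat.mul_le_mul_right _ h4))
    rw [card_VV]
    refine Nat.mul_le_mul_left _ ?_
    omega
  have h6 : (P.N : ℝ) * P.D ≤ (nonstars (TT P) 4).card * 4 := by exact_mod_cast h5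
  rw [e] at h6
  have h7 : (P.N : ℝ) * P.D ≤ qq (TT P) 4 * (K2 4 * 2 ^ (4 + 2) * (P.N * (P.D : ℝ) ^ (4 - 1))) * 4 := by
    refine h6.trans ?_
    gcongr
  have hpos : 0 < (P.N : ℝ) * P.D := by positivity
  refine le_of_mul_le_mul_left ?_ hpos
  calc (P.N : ℝ) * P.D * 1 = P.N * P.D := by ring
    _ ≤ _ := h7
    _ = _ := by norm_num; ring

end Pool.Agent.Helper49.PS
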