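import Pool.Agent.Helper49.PS.Build

namespace Pool.Agent.Helper49.PS

open SimpleGraph Finset
open scoped Classical

section gen

variable {V : Type} [Fintype V] {G : SimpleGraph V}

omit [Fintype V] in
/-- the vertices of the path between two vertices -/
noncomputable def supp (hG : G.IsTree) (x y : V) : Finset V :=
  (Classical.choose (hG.existsUnique_path x y).exists).support.toFinset

omit [Fintype V] in
lemma supp_eq (hG : G.IsTree) {x y : V} (p : G.Walk x y) (hp : p.IsPath) :
    supp hG x y = p.support.toFinset := by
  have h1 := Classical.choose_spec (hG.existsUnique_path x y).exists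
  have h2 := (hG.existsUnique_path x y).unique h1 hp
  unfold supp
  rw [h2]

lemma path_char (hG : G.IsTree) {k : ℕ} (hk : 1 ≤ k) {U : Finset V} (hU : U ∈ pathsF G k) :
    ∃ x y : V, G.dist x y + 1 = k ∧ U = supp hG x y := by
  rw [pathsF, mem_filter] at hU
  have hcard := card_of_iso hU.2
  obtain ⟨-, ⟨e⟩⟩ := hU
  obtain ⟨k', rfl⟩ : ∃ k', k = k' + 1 := ⟨k - 1, by omega⟩
  have hconn : (G.induce (U : Set V)).Connected := e.symm.connected_iff.1 (pathGraph_connected k')
  set x : (U : Set V) := e.symm ⟨0, by omega⟩ with hx
  set y : (U : Set V) := e.symm ⟨k', by omega⟩ with hy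
  obtain ⟨q, hq⟩ := hconn.exists_isPath x y
  -- the length of q is at least k'
  have hlen1 : k' ≤ q.length := by
    have key : ∀ {a b : (U : Set V)} (q : (G.induce (U : Set V)).Walk a b),
        (e b).1 ≤ (e a).1 + q.length := by
      intro a b q
      induction q with
      | nil => simp
      | cons h p ih =>
        rename_i u v w
        have h1 : (pathGraph (k' + 1)).Adj (e u) (e v) := e.map_adj_iff.2 h
        rw [pathGraph_adj] at h1
        rw [Walk.length_cons]
        omega
    have hkey := key q
    have hex : (e x).1 = 0 := by rw [hx, e.apply_symm_apply]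
    have hey : (e y).1 = k' := by rw [hy, e.apply_symm_apply]
    omega
  have hlen2 : q.length ≤ k' := by
    have h1 := hq.length_lt
    have h2 : Fintype.card (U : Set V) = k' + 1 := by simpa using hcard
    omega
  let p : G.Walk x.1 y.1 := q.map (Embedding.induce (G := G) (U : Set V)).toHom
  have hp : p.IsPath := hq.map (Embedding.induce (G := G) (U : Set V)).injective
  have hpl : p.length = k' := by
    show (q.map _).length = k'
    rw [Walk.length_map]
    omega
  refine ⟨x.1, y.1, ?_, ?_⟩
  · rw [← length_eq_dist hG p hp, hpl]
  · rw [supp_eq hG p hp]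
    symm
    apply Finset.eq_of_subset_of_card_le
    · intro z hz
      rw [List.mem_toFinset] at hz
      have hz' : z ∈ (q.map (Embedding.induce (G := G) (U : Set V)).toHom).support := hz
      rw [Walk.support_map, List.mem_map] at hz'
      obtain ⟨z', -, rfl⟩ := hz'
      exact z'.2
    · rw [hcard, List.toFinset_card_of_nodup hp.support_nodup, Walk.length_support, hpl]

end gen

variable (P : Par)

/-- the spine vertices near a position -/
noncomputable def near (k : ℕ) (x : VV P) : Finset (VV P) :=
  univ.filter (fun y => ht P y = 0 ∧ ss P y ≤ ss P x + k ∧ ss P x ≤ ss P y + k)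

lemma card_near (k : ℕ) (x : VV P) : (near P k x).card ≤ 2 * k + 1 := by
  have h1 : (near P k x).card = ((near P k x).image (ss P)).card := by
    rw [Finset.card_image_of_injOn]
    intro y hy z hz hyz
    simp only [near, coe_filter, mem_univ, true_and, Set.mem_ofPred_eq] at hy hz
    rcases y with p | p | p
    · rcases z with q | q | q
      · rw [ss_inj P hyz]
      · simp [ht] at hz
      · simp [ht] at hz
    · simp [ht] at hy
    · simp [ht] at hy
  rw [h1]
  have h2 : (near P k x).image (ss P) ⊆ Finset.Icc (ss P x - k) (ss P x + k) := by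
    intro n hn
    rw [mem_image] at hn
    obtain ⟨y, hy, rfl⟩ := hn
    rw [near, mem_filter] at hy
    rw [Finset.mem_Icc]
    omega
  refine (Finset.card_le_card h2).trans ?_
  rw [Nat.card_Icc]
  omega

lemma pathsF_le {k : ℕ} (hk : Good P k) (hg : k ≤ P.g) :
    (pathsF (TT P) k).card ≤ 2 * ((2 * k + 1) * Fintype.card (VV P)) := by
  have hk4 : 4 ≤ k := by rcases hk with h | h | h <;> omega
  set A : Finset (VV P × VV P) := (univ : Finset (VV P)).biUnion
    (fun x => (near P k x).image (fun y => (x, y))) with hA
  set B : Finset (VV P × VV P) := (univ : Finset (VV P)).biUnion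
    (fun x => (near P k x).image (fun y => (y, x))) with hB
  have hAc : A.card ≤ (2 * k + 1) * Fintype.card (VV P) := by
    rw [hA, mul_comm, ← Finset.card_univ]
    exact Finset.card_biUnion_le_card_mul _ _ _
      (fun x _ => Finset.card_image_le.trans (card_near P k x))
  have hBc : B.card ≤ (2 * k + 1) * Fintype.card (VV P) := by
    rw [hB, mul_comm, ← Finset.card_univ]
    exact Finset.card_biUnion_le_card_mul _ _ _
      (fun x _ => Finset.card_image_le.trans (card_near P k x))
  have hsub : pathsF (TT P) k ⊆ (A ∪ B).image (fun p => supp (TT_tree P) p.1 p.2) := by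
    intro U hU
    obtain ⟨x, y, hd, hUs⟩ := path_char (TT_tree P) (by omega) hU
    rw [mem_image]
    refine ⟨(x, y), ?_, hUs.symm⟩
    have h1 := dist_ss P x y
    have h2 := dist_ss P y x
    rw [SimpleGraph.dist_comm] at h2
    have hne : ss P x ≠ ss P y := by
      intro h
      have := dist_good P hk h
      omega
    have hor : ht P x = 0 ∨ ht P y = 0 := by
      by_contra hcon
      push Not at hcon
      have key : ∀ z : VV P, ht P z ≠ 0 → ∃ j, ss P z = j * P.g := by
        intro z hz
        rcases z with p | p | p
        · simp [ht] at hz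
        · exact ⟨p.1.1, rfl⟩
        · exact ⟨p.1.1, rfl⟩
      obtain ⟨j, hj⟩ := key x hcon.1
      obtain ⟨j', hj'⟩ := key y hcon.2
      rw [hj, hj'] at h1 h2 hne
      rcases lt_trichotomy j j' with h | h | h
      · have : (j + 1) * P.g ≤ j' * P.g := Nat.mul_le_mul_right _ h
        rw [add_mul, one_mul] at this
        omega
      · exact hne (by rw [h])
      · have : (j' + 1) * P.g ≤ j * P.g := Nat.mul_le_mul_right _ h
        rw [add_mul, one_mul] at this
        omega
    rw [mem_union]
    rcases hor with h | h
    · right
      rw [hB, mem_biUnion]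
      refine ⟨y, mem_univ _, ?_⟩
      rw [mem_image]
      refine ⟨x, ?_, rfl⟩
      rw [near, mem_filter]
      exact ⟨mem_univ _, h, by omega, by omega⟩
    · left
      rw [hA, mem_biUnion]
      refine ⟨x, mem_univ _, ?_⟩
      rw [mem_image]
      refine ⟨y, ?_, rfl⟩
      rw [near, mem_filter]
      exact ⟨mem_univ _, h, by omega, by omega⟩
  have h3 := (Finset.card_le_card hsub).trans Finset.card_image_le
  have h4 := Finset.card_union_le A B
  omega

end Pool.Agent.Helper49.PS
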