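import Pool.Agent.Helper49.PS.Upper

namespace Pool.Agent.Helper49.PS

open SimpleGraph Finset
open scoped Classical

variable {V : Type} [Fintype V] {G : SimpleGraph V}

omit [Fintype V] in
lemma iso_of_map {k : ℕ} {H : SimpleGraph (Fin k)} (f : Fin k → V) (hf : Function.Injective f)
    (hadj : ∀ i j, G.Adj (f i) (f j) ↔ H.Adj i j) :
    Nonempty (G.induce ((univ.image f : Finset V) : Set V) ≃g H) := by
  let e : Fin k ≃ ((univ.image f : Finset V) : Set V) := Equiv.ofBijective
    (fun i => ⟨f i, by simp⟩)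
    ⟨fun i j hij => hf (by simpa using congrArg Subtype.val hij), by
      rintro ⟨x, hx⟩
      have hx' : x ∈ univ.image f := hx
      rw [mem_image] at hx'
      obtain ⟨i, -, hi⟩ := hx'
      exact ⟨i, Subtype.ext hi⟩⟩
  refine ⟨RelIso.symm ⟨e, ?_⟩⟩
  intro i j
  exact hadj i j

omit [Fintype V] in
lemma card_of_iso {k : ℕ} {H : SimpleGraph (Fin k)} {U : Finset V}
    (h : Nonempty (G.induce (U : Set V) ≃g H)) : U.card = k := by
  obtain ⟨e⟩ := h
  have := Fintype.card_congr e.toEquiv
  simpa using this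

variable (G)

/-- the `k`-vertex paths -/
noncomputable def pathsF (k : ℕ) : Finset (Finset V) :=
  univ.filter (fun U => Nonempty (G.induce (U : Set V) ≃g pathGraph k))

variable {G}

lemma mem_pathsF_of_dist (hG : G.Connected) (k : ℕ) (w x : V) (hd : k ≤ G.dist w x + 1)
    (hk : 1 ≤ k) : ∃ U ∈ pathsF G k, w ∈ U := by
  obtain ⟨p, hp, hpl⟩ := (hG w x).exists_path_of_dist
  have hdist : ∀ i : ℕ, i ≤ p.length → G.dist w (p.getVert i) = i := by
    intro i hi
    have h1 := G.dist_le (p.take i)
    rw [Walk.take_length, min_eq_left hi] at h1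
    have h2 := G.dist_le (p.drop i)
    rw [Walk.drop_length] at h2
    have h3 := hG.dist_triangle (u := w) (v := p.getVert i) (w := x)
    omega
  let f : Fin k → V := fun i => p.getVert i.1
  have hfd : ∀ i : Fin k, G.dist w (f i) = i.1 := fun i => hdist i.1 (by have := i.2; omega)
  have hinj : Function.Injective f := by
    intro i j hij
    apply Fin.ext
    rw [← hfd i, ← hfd j, hij]
  refine ⟨univ.image f, ?_, ?_⟩
  · rw [pathsF, mem_filter]
    refine ⟨mem_univ _, iso_of_map f hinj ?_⟩
    intro i j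
    rw [pathGraph_adj]
    constructor
    · intro h
      have h1 := h.diff_dist_adj (u := w)
      rw [hfd, hfd] at h1
      have h2 : i.1 ≠ j.1 := by
        intro h3
        have : i = j := Fin.ext h3
        rw [this] at h
        exact G.loopless.irrefl _ h
      omega
    · rintro (h | h)
      · have := p.adj_getVert_succ (i := i.1) (by have := j.2; omega)
        rw [h] at this
        exact this
      · have := p.adj_getVert_succ (i := j.1) (by have := i.2; omega)
        rw [h] at this
        exact this.symm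
  · rw [mem_image]
    exact ⟨⟨0, hk⟩, mem_univ _, by simp [f]⟩

/-- in a tree of large diameter every vertex is the end of a path with `k` vertices -/
lemma card_le_pathsF (hG : G.Connected) (k : ℕ) (hk : 1 ≤ k) (x y : V)
    (hxy : 2 * (k - 1) ≤ G.dist x y) : Fintype.card V ≤ (pathsF G k).card * k := by
  have h1 : (univ : Finset V) ⊆ (pathsF G k).biUnion (fun U => U) := by
    intro w _
    have h2 := hG.dist_triangle (u := x) (v := w) (w := y)
    rw [mem_biUnion]
    rcases le_or_gt (k - 1) (G.dist w x) with h3 | h3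
    · exact mem_pathsF_of_dist hG k w x (by omega) hk
    · rw [G.dist_comm] at h3
      exact mem_pathsF_of_dist hG k w y (by omega) hk
  rw [← Finset.card_univ]
  refine (Finset.card_le_card h1).trans (Finset.card_biUnion_le_card_mul _ _ _ ?_)
  intro U hU
  rw [pathsF, mem_filter] at hU
  exact (card_of_iso hU.2).le

lemma starsF_eq (hG : G.IsAcyclic) (k : ℕ) (hk : 1 ≤ k) :
    starsF G k = univ.filter (fun U : Finset V =>
      Nonempty (G.induce (U : Set V) ≃g starGraph (⟨0, hk⟩ : Fin k))) := by
  ext U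
  rw [starsF, mem_filter, mem_filter]
  constructor
  · rintro ⟨-, hc, v, hv, hadj⟩
    refine ⟨mem_univ _, ?_⟩
    have e0 : (U : Set V) ≃ Fin k := Fintype.equivFinOfCardEq (by simpa using hc)
    let e : (U : Set V) ≃ Fin k := e0.trans (Equiv.swap (e0 ⟨v, hv⟩) ⟨0, hk⟩)
    have hev : e ⟨v, hv⟩ = ⟨0, hk⟩ := by simp [e]
    refine ⟨⟨e, ?_⟩⟩
    intro a b
    rw [starGraph_adj, e.injective.ne_iff, ← hev, e.injective.eq_iff, e.injective.eq_iff]
    have hab : (G.induce (U : Set V)).Adj a b ↔ G.Adj a.1 b.1 := Iff.rfl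
    rw [hab]
    constructor
    · rintro ⟨hne, rfl | rfl⟩
      · exact hadj b.1 b.2 (fun h => hne (Subtype.ext h.symm))
      · exact (hadj a.1 a.2 (fun h => hne (Subtype.ext h))).symm
    · intro h
      refine ⟨fun h' => G.loopless.irrefl a.1 (by rw [h'] at h ⊢; exact h), ?_⟩
      by_contra hcon
      push Not at hcon
      have hav : a.1 ≠ v := fun h' => hcon.1 (Subtype.ext h')
      have hbv : b.1 ≠ v := fun h' => hcon.2 (Subtype.ext h')
      have h1 := hadj a.1 a.2 hav
      have h2 := hadj b.1 b.2 hbv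
      have h3 := hG.cliqueFree (n := 3) le_rfl
      exact h3 {v, a.1, b.1} (is3Clique_triple_iff.2 ⟨h1, h2, h⟩)
  · rintro ⟨-, h⟩
    refine ⟨mem_univ _, card_of_iso h, ?_⟩
    obtain ⟨e⟩ := h
    refine ⟨(e.symm ⟨0, hk⟩).1, (e.symm ⟨0, hk⟩).2, ?_⟩
    intro x hx hxv
    have h1 : (G.induce (U : Set V)).Adj (e.symm ⟨0, hk⟩) ⟨x, hx⟩ := by
      rw [← e.map_adj_iff, e.apply_symm_apply]
      rw [starGraph_adj]
      refine ⟨?_, Or.inl rfl⟩
      intro h
      apply hxv
      have h4 : e.symm ⟨0, hk⟩ = ⟨x, hx⟩ := by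
        apply e.injective
        rw [e.apply_symm_apply]
        exact h
      rw [h4]
    exact h1

variable (G)

lemma copies_eq {k : ℕ} (H : SimpleGraph (Fin k)) : copies G H =
    (univ.filter (fun U : Finset V => Nonempty (G.induce (U : Set V) ≃g H))).card := by
  rw [copies, Nat.card_eq_fintype_card, Fintype.card_subtype]

lemma subtrees_eq (k : ℕ) : subtrees G k = (conF G k).card := by
  rw [subtrees, Nat.card_eq_fintype_card, Fintype.card_subtype, conF]

end Pool.Agent.Helper49.PS
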