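import Pool.Agent.Helper49.PS.Paths

namespace Pool.Agent.Helper49.PS

open SimpleGraph Finset
open scoped Classical

variable {V : Type} [Fintype V] (G : SimpleGraph V)

/-- proportion of the non-stars -/
noncomputable def qq (k : ℕ) : ℝ := ((nonstars G k).card : ℝ) / (conF G k).card

/-- proportion of the paths -/
noncomputable def pp (k : ℕ) : ℝ := ((pathsF G k).card : ℝ) / (conF G k).card

/-- vertices over moment -/
noncomputable def RR (k : ℕ) : ℝ := (Fintype.card V : ℝ) / mom G (k - 1)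

/-- `S ≤ K1 * Z` -/
noncomputable def K1 (k : ℕ) : ℝ := (k : ℝ) ^ k * (k.factorial : ℝ) * (2 * k)

/-- `Z ≤ K2 * S` -/
noncomputable def K2 (k : ℕ) : ℝ := 1 + 4 * (k : ℝ) ^ (k - 3)

/-- the exponent for bounded diameter -/
noncomputable def kap (k : ℕ) : ℝ := (((k - 2 : ℕ) : ℝ) / (((k - 2 : ℕ) : ℝ) + 1)) ^ (2 * k)

variable {G}

lemma conF_pos (hG : G.IsTree) (k : ℕ) (hk : 4 ≤ k) (hn : k ≤ Fintype.card V) :
    (0 : ℝ) < (conF G k).card := by
  have h1 := card_le_conF hG.connected k (by omega) hn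
  have h2 : 0 < (conF G k).card := by
    by_contra hcon
    have : (conF G k).card = 0 := by omega
    rw [this] at h1
    omega
  exact_mod_cast h2

lemma mom_pos (hG : G.IsTree) (k : ℕ) (hk : 4 ≤ k) (hn : k ≤ Fintype.card V) :
    0 < mom G (k - 1) := by
  refine lt_of_lt_of_le ?_ (card_le_mom hG (by omega) _)
  exact_mod_cast (by omega : 0 < Fintype.card V)

lemma RR_nonneg (hG : G.IsTree) (k : ℕ) (hk : 4 ≤ k) (hn : k ≤ Fintype.card V) :
    0 ≤ RR G k := div_nonneg (by positivity) (mom_pos hG k hk hn).le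

lemma RR_le_one (hG : G.IsTree) (k : ℕ) (hk : 4 ≤ k) (hn : k ≤ Fintype.card V) :
    RR G k ≤ 1 := (div_le_one (mom_pos hG k hk hn)).2 (card_le_mom hG (by omega) _)

lemma mom_le_K1 (hG : G.IsTree) (k : ℕ) (hk : 4 ≤ k) (hn : k ≤ Fintype.card V) :
    mom G (k - 1) ≤ K1 k * (conF G k).card := mom_le_conF hG k (by omega) hn

lemma conF_le_K2 (hG : G.IsTree) (k : ℕ) (hk : 4 ≤ k) (hn : k ≤ Fintype.card V) :
    ((conF G k).card : ℝ) ≤ K2 k * mom G (k - 1) := conF_le_mom hG k hk (by omega)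

lemma K1_nonneg (k : ℕ) : 0 ≤ K1 k := by unfold K1; positivity

lemma K2_nonneg (k : ℕ) : 0 ≤ K2 k := by unfold K2; positivity

lemma qq_le (hG : G.IsTree) (k : ℕ) (hk : 4 ≤ k) (hn : k ≤ Fintype.card V) :
    qq G k ≤ 4 * (k : ℝ) ^ (k - 3) * K1 k * (RR G k) ^ (1 / ((k : ℝ) - 2) ^ 2) := by
  have hZ := conF_pos hG k hk hn
  rw [qq, div_le_iff₀ hZ]
  refine (nonstars_real hG k hk (by omega)).trans ?_
  have h1 := mom_le_K1 hG k hk hn
  have h2 : (0 : ℝ) ≤ (RR G k) ^ (1 / ((k : ℝ) - 2) ^ 2) :=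
    Real.rpow_nonneg (RR_nonneg hG k hk hn) _
  calc 4 * (k : ℝ) ^ (k - 3) * mom G (k - 1) * (RR G k) ^ (1 / ((k : ℝ) - 2) ^ 2)
      ≤ 4 * (k : ℝ) ^ (k - 3) * (K1 k * (conF G k).card) *
        (RR G k) ^ (1 / ((k : ℝ) - 2) ^ 2) := by
        refine mul_le_mul_of_nonneg_right ?_ h2
        exact mul_le_mul_of_nonneg_left h1 (by positivity)
    _ = _ := by ring

lemma kap_pos (k : ℕ) (hk : 4 ≤ k) : 0 < kap k := by
  unfold kap
  have : (0 : ℝ) < ((k - 2 : ℕ) : ℝ) := by exact_mod_cast (by omega : 0 < k - 2)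
  positivity

lemma RR_le (hG : G.IsTree) (k : ℕ) (hk : 4 ≤ k) (hn : k ≤ Fintype.card V) :
    RR G k ≤ k * K2 k * pp G k + (2 * k + 1) * (Fintype.card V : ℝ) ^ (-kap k) := by
  have hZ := conF_pos hG k hk hn
  have hS := mom_pos hG k hk hn
  have hN : (0 : ℝ) < Fintype.card V := by exact_mod_cast (by omega : 0 < Fintype.card V)
  have hNS : (Fintype.card V : ℝ) ≤ mom G (k - 1) := card_le_mom hG (by omega) _
  have hppnn : 0 ≤ pp G k := by unfold pp; positivity
  by_cases hd : ∃ x y, 2 * (k - 1) ≤ G.dist x y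
  · obtain ⟨x, y, hxy⟩ := hd
    have h1 : (Fintype.card V : ℝ) ≤ (pathsF G k).card * k := by
      exact_mod_cast card_le_pathsF hG.connected k (by omega) x y hxy
    have h2 : RR G k ≤ k * K2 k * pp G k := by
      rw [RR, div_le_iff₀ hS]
      have h3 := conF_le_K2 hG k hk hn
      calc (Fintype.card V : ℝ) ≤ (pathsF G k).card * k := h1
        _ = k * pp G k * (conF G k).card := by
            rw [pp]; field_simp
        _ ≤ k * pp G k * (K2 k * mom G (k - 1)) :=
            mul_le_mul_of_nonneg_left h3 (by positivity)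
        _ = _ := by ring
    have h4 : (0 : ℝ) ≤ (2 * k + 1) * (Fintype.card V : ℝ) ^ (-kap k) := by positivity
    linarith
  · push Not at hd
    obtain ⟨r⟩ := hG.connected.nonempty
    have h1 := card_le_level hG (by omega) (k - 2) r (2 * k) (fun v => by have := hd r v; omega)
    have e1 : k - 2 + 1 = k - 1 := by omega
    rw [e1] at h1
    have h2 : RR G k ≤ (2 * k + 1) * (Fintype.card V : ℝ) ^ (-kap k) := by
      rw [RR, div_le_iff₀ hS]
      have h3 : (mom G (k - 1)) ^ (1 - kap k) = (mom G (k - 1)) ^ (-kap k) * mom G (k - 1) := by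
        rw [← Real.rpow_add_one hS.ne']
        congr 1
        ring
      have h4 : (mom G (k - 1)) ^ (-kap k) ≤ (Fintype.card V : ℝ) ^ (-kap k) :=
        Real.rpow_le_rpow_of_nonpos hN hNS (by have := kap_pos k hk; linarith)
      have h5 : (Fintype.card V : ℝ) ≤ (((2 * k : ℕ) : ℝ) + 1) * (mom G (k - 1)) ^ (1 - kap k) := h1
      rw [h3] at h5
      push_cast at h5
      refine h5.trans ?_
      rw [mul_assoc]
      refine mul_le_mul_of_nonneg_left ?_ (by positivity)
      exact mul_le_mul_of_nonneg_right h4 hS.le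
    have h6 : 0 ≤ k * K2 k * pp G k := by
      have := K2_nonneg k
      positivity
    linarith

end Pool.Agent.Helper49.PS
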