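import Pool.Agent.Helper49.PS.Rate

namespace Pool.Agent.Helper49.PS

open SimpleGraph Finset
open scoped Classical

variable {V : Type} [Fintype V] {G : SimpleGraph V}

omit [Fintype V] in
lemma length_eq_dist (hG : G.IsTree) {x y : V} (p : G.Walk x y) (hp : p.IsPath) :
    p.length = G.dist x y := by
  obtain ⟨q, hq, hql⟩ := (hG.connected x y).exists_path_of_dist
  have : p = q := by
    have := (hG.isAcyclic.subsingleton_path x y).elim ⟨_, hp⟩ ⟨_, hq⟩
    simpa using this
  rw [this, hql]

lemma support_mem_pathsF (hG : G.IsTree) {w x : V} (p : G.Walk w x) (hp : p.IsPath) (k : ℕ)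
    (hk : k = p.length + 1) : p.support.toFinset ∈ pathsF G k := by
  have hpl := length_eq_dist hG p hp
  have hdist : ∀ i : ℕ, i ≤ p.length → G.dist w (p.getVert i) = i := by
    intro i hi
    have h1 := G.dist_le (p.take i)
    rw [Walk.take_length, min_eq_left hi] at h1
    have h2 := G.dist_le (p.drop i)
    rw [Walk.drop_length] at h2
    have h3 := hG.connected.dist_triangle (u := w) (v := p.getVert i) (w := x)
    omega
  let f : Fin k → V := fun i => p.getVert i.1
  have hfd : ∀ i : Fin k, G.dist w (f i) = i.1 := fun i => hdist i.1 (by have := i.2; omega)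
  have hinj : Function.Injective f := by
    intro i j hij
    apply Fin.ext
    rw [← hfd i, ← hfd j, hij]
  have himg : p.support.toFinset = univ.image f := by
    ext z
    rw [List.mem_toFinset, mem_image, Walk.mem_support_iff_exists_getVert]
    constructor
    · rintro ⟨n, hn, hle⟩
      exact ⟨⟨n, by omega⟩, mem_univ _, hn⟩
    · rintro ⟨i, -, hi⟩
      exact ⟨i.1, hi, by have := i.2; omega⟩
  rw [himg, pathsF, mem_filter]
  refine ⟨mem_univ _, iso_of_map f hinj ?_⟩
  intro i j
  rw [pathGraph_adj]
  constructor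
  · intro h
    have h1 := h.diff_dist_adj (u := w)
    rw [hfd, hfd] at h1
    have h2 : i.1 ≠ j.1 := by
      intro h3
      have : i = j := Fin.ext h3
      rw [this] at h
      exact G.loopless.irrefl _ h
    omega
  · rintro (h | h)
    · have := p.adj_getVert_succ (i := i.1) (by have := j.2; omega)
      rw [h] at this
      exact this
    · have := p.adj_getVert_succ (i := j.1) (by have := i.2; omega)
      rw [h] at this
      exact this.symm

/-- for `k = 4` every non-star is a path -/
lemma nonstars_four (hG : G.IsTree) : nonstars G 4 ⊆ pathsF G 4 := by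
  intro U hU
  rw [nonstars, mem_filter] at hU
  obtain ⟨-, hcard, hconn, hns⟩ := hU
  have hUne : U.Nonempty := by
    rw [← Finset.card_pos]; omega
  obtain ⟨v, hvU⟩ := hUne
  have hw : ∃ w ∈ U, w ≠ v ∧ ¬ G.Adj v w := by
    by_contra hcon
    push Not at hcon
    exact hns ⟨v, hvU, fun x hx hxv => hcon x hx hxv⟩
  obtain ⟨w, hwU, hwv, hnadj⟩ := hw
  obtain ⟨p⟩ := hconn.preconnected ⟨v, hvU⟩ ⟨w, hwU⟩
  obtain ⟨d, -, hd1, hd2⟩ := p.exists_boundary_dart {z | z.1 = v ∨ G.Adj v z.1} (Or.inl rfl)
    (by rintro (h | h); exacts [hwv h, hnadj h])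
  have hadj : G.Adj d.fst.1 d.snd.1 := d.adj
  have hd2' : ¬ (d.snd.1 = v ∨ G.Adj v d.snd.1) := hd2
  push Not at hd2'
  have hvu : G.Adj v d.fst.1 := by
    rcases hd1 with h | h
    · rw [h] at hadj; exact absurd hadj hd2'.2
    · exact h
  obtain ⟨⟨u, huU⟩, ⟨w', hw'U⟩, hd⟩ : ∃ a b : (U : Set V), d.fst = a ∧ d.snd = b := ⟨_, _, rfl, rfl⟩
  rw [hd.1, hd.2] at hadj
  rw [hd.1] at hvu
  rw [hd.2] at hd2'
  simp only at hadj hvu hd2'
  have hcard3 : ({v, u, w'} : Finset V).card = 3 := by
    rw [Finset.card_eq_three]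
    exact ⟨v, u, w', hvu.ne, hd2'.1.symm, hadj.ne, rfl⟩
  have hsub3 : ({v, u, w'} : Finset V) ⊆ U := by
    intro z hz
    simp only [mem_insert, mem_singleton] at hz
    rcases hz with rfl | rfl | rfl
    · exact hvU
    · exact huU
    · exact hw'U
  have hz : ∃ z ∈ U, z ∉ ({v, u, w'} : Finset V) := by
    by_contra hcon
    push Not at hcon
    have := Finset.card_le_card (show U ⊆ {v, u, w'} from hcon)
    omega
  obtain ⟨z, hzU, hz3⟩ := hz
  have hUeq : U = insert z ({v, u, w'} : Finset V) := by
    symm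
    apply Finset.eq_of_subset_of_card_le
    · exact Finset.insert_subset hzU hsub3
    · rw [Finset.card_insert_of_notMem hz3]; omega
  obtain ⟨q⟩ := hconn.preconnected ⟨v, hvU⟩ ⟨z, hzU⟩
  obtain ⟨d', -, he1, he2⟩ := q.exists_boundary_dart {y | y.1 ∈ ({v, u, w'} : Finset V)}
    (by simp) hz3
  have hadj' : G.Adj d'.fst.1 d'.snd.1 := d'.adj
  have hz' : d'.snd.1 = z := by
    have h1 := d'.snd.2
    have h2 : d'.snd.1 ∉ ({v, u, w'} : Finset V) := he2
    have h3 := (Finset.ext_iff.1 hUeq d'.snd.1).1 h1
    rw [mem_insert] at h3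
    rcases h3 with h3 | h3
    · exact h3
    · exact absurd h3 h2
  have he1' : d'.fst.1 ∈ ({v, u, w'} : Finset V) := he1
  rw [hz'] at hadj'
  simp only [mem_insert, mem_singleton, not_or] at he1' hz3
  rcases he1' with h | h | h
  · rw [h] at hadj'
    -- path z v u w'
    let P : G.Walk z w' := Walk.cons hadj'.symm (Walk.cons hvu (Walk.cons hadj Walk.nil))
    have hP : P.IsPath := by
      rw [hG.isAcyclic.isPath_iff_isChain]
      simp only [P, Walk.edges_cons, Walk.edges_nil, List.isChain_cons_cons,
        List.isChain_singleton, and_true, ne_eq, Sym2.eq_iff]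
      have h1 := hvu.ne
      have h2 := hadj.ne
      have h3 := hd2'.1
      grind
    have := support_mem_pathsF hG P hP 4 (by simp [P])
    rw [hUeq]
    convert this using 1
    ext y
    simp [P]
  · exfalso
    rw [h] at hadj'
    apply hns
    refine ⟨u, huU, ?_⟩
    intro x hx hxu
    rw [hUeq] at hx
    simp only [mem_insert, mem_singleton] at hx
    rcases hx with rfl | rfl | rfl | rfl
    · exact hadj'
    · exact hvu.symm
    · exact absurd rfl hxu
    · exact hadj
  · rw [h] at hadj'
    -- path v u w' z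
    let P : G.Walk v z := Walk.cons hvu (Walk.cons hadj (Walk.cons hadj' Walk.nil))
    have hP : P.IsPath := by
      rw [hG.isAcyclic.isPath_iff_isChain]
      simp only [P, Walk.edges_cons, Walk.edges_nil, List.isChain_cons_cons,
        List.isChain_singleton, and_true, ne_eq, Sym2.eq_iff]
      have h1 := hvu.ne
      have h2 := hadj.ne
      have h3 := hd2'.1
      grind
    have := support_mem_pathsF hG P hP 4 (by simp [P])
    rw [hUeq]
    convert this using 1
    ext y
    simp [P]
    tauto

end Pool.Agent.Helper49.PS
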