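import Pool.Agent.Helper49.PS.Moment

namespace Pool.Agent.Helper49.PS

open SimpleGraph Finset
open scoped Classical

variable {V : Type} [Fintype V] (G : SimpleGraph V)

/-- the `k`-vertex stars -/
noncomputable def starsF (k : ℕ) : Finset (Finset V) :=
  univ.filter (fun U => U.card = k ∧ IsStarSet G U)

/-- the `k`-vertex subtrees -/
noncomputable def conF (k : ℕ) : Finset (Finset V) :=
  univ.filter (fun U => U.card = k ∧ (G.induce (U : Set V)).Connected)

/-- the neighbours -/
noncomputable def nb (v : V) : Finset V := univ.filter (fun u => G.Adj v u)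

omit [Fintype V] in
lemma star_connected (U : Finset V) (h : IsStarSet G U) :
    (G.induce (U : Set V)).Connected := by
  obtain ⟨v, hv, hadj⟩ := h
  rw [connected_iff_exists_forall_reachable]
  refine ⟨⟨v, hv⟩, ?_⟩
  rintro ⟨x, hx⟩
  by_cases hxv : x = v
  · subst hxv; exact Reachable.refl _
  · exact Adj.reachable (show (G.induce (U : Set V)).Adj ⟨v, hv⟩ ⟨x, hx⟩ from hadj x hx hxv)

lemma conF_card (k : ℕ) : (conF G k).card = (starsF G k).card + (nonstars G k).card := by
  have h1 : starsF G k = (conF G k).filter (fun U => IsStarSet G U) := by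
    ext U
    simp only [starsF, conF, mem_filter, mem_univ, true_and]
    constructor
    · rintro ⟨h1, h2⟩; exact ⟨⟨h1, star_connected G U h2⟩, h2⟩
    · rintro ⟨⟨h1, -⟩, h2⟩; exact ⟨h1, h2⟩
  have h2 : nonstars G k = (conF G k).filter (fun U => ¬ IsStarSet G U) := by
    ext U
    simp only [nonstars, conF, mem_filter, mem_univ, true_and]
    tauto
  rw [h1, h2, Finset.card_filter_add_card_filter_not]

lemma exists_conn {G : SimpleGraph V} (hG : G.Connected) (v : V) : ∀ j : ℕ, 1 ≤ j →
    j ≤ Fintype.card V →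
    ∃ U : Finset V, v ∈ U ∧ U.card = j ∧ (G.induce (U : Set V)).Connected := by
  intro j h1
  induction j, h1 using Nat.le_induction with
  | base =>
    intro _
    refine ⟨{v}, by simp, by simp, star_connected G _ ⟨v, by simp, ?_⟩⟩
    intro x hx hxv
    exact absurd (by simpa using hx) hxv
  | succ j hj ih =>
    intro hle
    obtain ⟨U, hvU, hUc, hconn⟩ := ih (by omega)
    have hex : ∃ w, w ∉ U := by
      by_contra hcon
      push Not at hcon
      have : U = univ := by ext x; simp [hcon x]
      rw [this, Finset.card_univ] at hUc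
      omega
    obtain ⟨w, hw⟩ := hex
    obtain ⟨p⟩ := hG.preconnected v w
    obtain ⟨d, -, hd1, hd2⟩ := p.exists_boundary_dart {z | z ∈ U} hvU hw
    refine ⟨insert d.snd U, mem_insert_of_mem hvU, ?_, ?_⟩
    · rw [Finset.card_insert_of_notMem hd2, hUc]
    · have h3 : (G.induce ((U : Set V) ∪ {d.snd})).Connected :=
        connected_induce_union (G := G) (v := d.fst) (w := d.snd) hconn.preconnected
          (by
            have := (star_connected G {d.snd} ⟨d.snd, by simp, by
              intro x hx hxv; exact absurd (by simpa using hx) hxv⟩).preconnected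
            simpa using this) hd1 (by simp) d.adj
      have h4 : ((insert d.snd U : Finset V) : Set V) = (U : Set V) ∪ {d.snd} := by
        ext x; simp [or_comm]
      rw [h4]
      exact h3

lemma card_le_conF {G : SimpleGraph V} (hG : G.Connected) (k : ℕ) (hk : 1 ≤ k)
    (hn : k ≤ Fintype.card V) : Fintype.card V ≤ (conF G k).card * k := by
  have h1 : (univ : Finset V) ⊆ (conF G k).biUnion (fun U => U) := by
    intro v _
    obtain ⟨U, hvU, hUc, hconn⟩ := exists_conn hG v k hk hn
    rw [mem_biUnion]
    refine ⟨U, ?_, hvU⟩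
    rw [conF, mem_filter]
    exact ⟨mem_univ _, hUc, hconn⟩
  rw [← Finset.card_univ]
  refine (Finset.card_le_card h1).trans (Finset.card_biUnion_le_card_mul _ _ _ ?_)
  intro U hU
  rw [conF, mem_filter] at hU
  exact hU.2.1.le

lemma stars_le (k : ℕ) (hk : 1 ≤ k) :
    (starsF G k).card ≤ ∑ v, (dg G v).choose (k - 1) := by
  have h1 : starsF G k ⊆ (univ : Finset V).biUnion (fun v =>
      ((nb G v).powersetCard (k - 1)).image (insert v)) := by
    intro U hU
    rw [starsF, mem_filter] at hU
    obtain ⟨-, hc, v, hv, hadj⟩ := hU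
    rw [mem_biUnion]
    refine ⟨v, mem_univ _, ?_⟩
    rw [mem_image]
    refine ⟨U.erase v, ?_, Finset.insert_erase hv⟩
    rw [mem_powersetCard]
    refine ⟨?_, ?_⟩
    · intro x hx
      rw [mem_erase] at hx
      rw [nb, mem_filter]
      exact ⟨mem_univ _, hadj x hx.2 hx.1⟩
    · rw [Finset.card_erase_of_mem hv, hc]
  refine (Finset.card_le_card h1).trans (Finset.card_biUnion_le.trans ?_)
  refine Finset.sum_le_sum ?_
  intro v _
  refine Finset.card_image_le.trans ?_
  rw [Finset.card_powersetCard]
  exact le_rfl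

lemma le_stars (k : ℕ) (hk : 1 ≤ k) :
    ∑ v, (dg G v).choose (k - 1) ≤ (starsF G k).card * k := by
  have h1 : ∀ v : V, (dg G v).choose (k - 1) ≤ ((starsF G k).filter (fun U => v ∈ U)).card := by
    intro v
    have h2 : (dg G v).choose (k - 1) = (((nb G v).powersetCard (k - 1)).image (insert v)).card := by
      rw [Finset.card_image_of_injOn, Finset.card_powersetCard]
      · rfl
      · intro A hA B hB hAB
        have hvA : v ∉ A := by
          intro h
          have := (mem_powersetCard.1 hA).1 h
          rw [nb, mem_filter] at this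
          exact G.loopless.irrefl v this.2
        have hvB : v ∉ B := by
          intro h
          have := (mem_powersetCard.1 hB).1 h
          rw [nb, mem_filter] at this
          exact G.loopless.irrefl v this.2
        have h3 : (insert v A).erase v = (insert v B).erase v := by
          rw [show insert v A = insert v B from hAB]
        rwa [Finset.erase_insert hvA, Finset.erase_insert hvB] at h3
    rw [h2]
    refine Finset.card_le_card ?_
    intro U hU
    rw [mem_image] at hU
    obtain ⟨A, hA, rfl⟩ := hU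
    rw [mem_powersetCard] at hA
    have hvA : v ∉ A := by
      intro h
      have := hA.1 h
      rw [nb, mem_filter] at this
      exact G.loopless.irrefl v this.2
    rw [mem_filter, starsF, mem_filter]
    refine ⟨⟨mem_univ _, ?_, v, mem_insert_self _ _, ?_⟩, mem_insert_self _ _⟩
    · rw [Finset.card_insert_of_notMem hvA, hA.2]; omega
    · intro x hx hxv
      have := hA.1 (Finset.mem_of_mem_insert_of_ne hx hxv)
      rw [nb, mem_filter] at this
      exact this.2
  calc ∑ v, (dg G v).choose (k - 1) ≤ ∑ v, ((starsF G k).filter (fun U => v ∈ U)).card :=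
        Finset.sum_le_sum fun v _ => h1 v
    _ = ∑ U ∈ starsF G k, U.card := by
        simp only [Finset.card_filter]
        rw [Finset.sum_comm]
        refine Finset.sum_congr rfl ?_
        intro U _
        rw [← Finset.card_filter]
        congr 1
        ext x
        simp
    _ = ∑ U ∈ starsF G k, k := by
        refine Finset.sum_congr rfl ?_
        intro U hU
        rw [starsF, mem_filter] at hU
        exact hU.2.1
    _ = (starsF G k).card * k := by simp

/-- `d ^ r` is at most a constant times `choose d r + 1`. -/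
lemma pow_le_choose_add (r d : ℕ) (hr : 1 ≤ r) :
    (d : ℝ) ^ r ≤ (r : ℝ) ^ r * (r.factorial : ℝ) * (d.choose r + 1) := by
  have hr' : (1 : ℝ) ≤ r := by exact_mod_cast hr
  have hf : (1 : ℝ) ≤ r.factorial := by exact_mod_cast Nat.factorial_pos r
  rcases le_or_gt d r with h | h
  · have h1 : (d : ℝ) ^ r ≤ (r : ℝ) ^ r :=
      pow_le_pow_left₀ (by positivity) (by exact_mod_cast h) _
    have h2 : (0 : ℝ) ≤ (d.choose r : ℝ) := by positivity
    have h3 : (1 : ℝ) ≤ (r.factorial : ℝ) * (d.choose r + 1) := by nlinarith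
    calc (d : ℝ) ^ r ≤ (r : ℝ) ^ r * 1 := by linarith
      _ ≤ (r : ℝ) ^ r * ((r.factorial : ℝ) * (d.choose r + 1)) :=
          mul_le_mul_of_nonneg_left h3 (by positivity)
      _ = _ := by ring
  · have h1 := Nat.pow_le_choose (α := ℝ) r d
    have h2 : (d : ℝ) ≤ (r : ℝ) * ((d + 1 - r : ℕ) : ℝ) := by
      have h3 : d ≤ r * (d + 1 - r) := by
        obtain ⟨e, rfl⟩ : ∃ e, d = r + e := ⟨d - r, by omega⟩
        have : r + e + 1 - r = e + 1 := by omega
        rw [this]
        nlinarith
      exact_mod_cast h3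
    have h4 : (d : ℝ) ^ r ≤ ((r : ℝ) * ((d + 1 - r : ℕ) : ℝ)) ^ r :=
      pow_le_pow_left₀ (by positivity) h2 _
    rw [div_le_iff₀ (by positivity)] at h1
    calc (d : ℝ) ^ r ≤ ((r : ℝ) * ((d + 1 - r : ℕ) : ℝ)) ^ r := h4
      _ = (r : ℝ) ^ r * ((d + 1 - r : ℕ) : ℝ) ^ r := by rw [mul_pow]
      _ ≤ (r : ℝ) ^ r * ((d.choose r : ℝ) * r.factorial) :=
          mul_le_mul_of_nonneg_left h1 (by positivity)
      _ ≤ (r : ℝ) ^ r * (((d.choose r : ℝ) + 1) * r.factorial) := by
          refine mul_le_mul_of_nonneg_left ?_ (by positivity)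
          refine mul_le_mul_of_nonneg_right ?_ (by positivity)
          linarith
      _ = _ := by ring

/-- the moment is at most a constant times the number of subtrees -/
lemma mom_le_conF {G : SimpleGraph V} (hG : G.IsTree) (k : ℕ) (hk : 2 ≤ k)
    (hn : k ≤ Fintype.card V) :
    mom G (k - 1) ≤ (k : ℝ) ^ k * (k.factorial : ℝ) * (2 * k) * (conF G k).card := by
  have hk1 : (1 : ℝ) ≤ k := by exact_mod_cast (by omega : 1 ≤ k)
  have h1 : ∀ v : V, (dg G v : ℝ) ^ (k - 1) ≤
      (k : ℝ) ^ k * (k.factorial : ℝ) * ((dg G v).choose (k - 1) + 1) := by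
    intro v
    refine (pow_le_choose_add (k - 1) (dg G v) (by omega)).trans ?_
    refine mul_le_mul_of_nonneg_right ?_ (by positivity)
    have h2 : ((k - 1 : ℕ) : ℝ) ^ (k - 1) ≤ (k : ℝ) ^ k := by
      calc ((k - 1 : ℕ) : ℝ) ^ (k - 1) ≤ (k : ℝ) ^ (k - 1) :=
            pow_le_pow_left₀ (by positivity) (by exact_mod_cast Nat.sub_le _ _) _
        _ ≤ (k : ℝ) ^ k := pow_le_pow_right₀ hk1 (Nat.sub_le _ _)
    have h3 : (((k - 1).factorial : ℕ) : ℝ) ≤ (k.factorial : ℝ) := by
      exact_mod_cast Nat.factorial_le (Nat.sub_le _ _)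
    exact mul_le_mul h2 h3 (by positivity) (by positivity)
  have h4 : ∑ v : V, (((dg G v).choose (k - 1) : ℕ) : ℝ) ≤ (conF G k).card * k := by
    have h5 := le_stars G k (by omega)
    have h6 : (starsF G k).card ≤ (conF G k).card := by rw [conF_card]; omega
    have h7 : ∑ v : V, (dg G v).choose (k - 1) ≤ (conF G k).card * k :=
      h5.trans (Nat.mul_le_mul_right _ h6)
    exact_mod_cast h7
  have h8 : (Fintype.card V : ℝ) ≤ (conF G k).card * k := by
    exact_mod_cast card_le_conF hG.connected k (by omega) hn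
  rw [mom]
  calc ∑ v, (dg G v : ℝ) ^ (k - 1) ≤
      ∑ v : V, (k : ℝ) ^ k * (k.factorial : ℝ) * ((dg G v).choose (k - 1) + 1) :=
        Finset.sum_le_sum fun v _ => h1 v
    _ = (k : ℝ) ^ k * (k.factorial : ℝ) * (∑ v : V, (((dg G v).choose (k - 1) : ℕ) : ℝ) +
        Fintype.card V) := by
        rw [← Finset.mul_sum, Finset.sum_add_distrib]
        simp
    _ ≤ (k : ℝ) ^ k * (k.factorial : ℝ) * ((conF G k).card * k + (conF G k).card * k) :=
        mul_le_mul_of_nonneg_left (add_le_add h4 h8) (by positivity)
    _ = _ := by ring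

end Pool.Agent.Helper49.PS
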