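import Pool.Agent.Helper49.PS.Stars

namespace Pool.Agent.Helper49.PS

open SimpleGraph Finset
open scoped Classical

lemma interp_form (N S b : ℝ) (hN : 0 < N) (hS : 0 < S) (hb1 : b ≤ 1) :
    (2 * N) ^ b * S ^ (1 - b) ≤ 2 * S * (N / S) ^ b := by
  rw [Real.mul_rpow (by norm_num) hN.le, Real.rpow_sub hS, Real.rpow_one,
    Real.div_rpow hN.le hS.le]
  have h1 : (2 : ℝ) ^ b ≤ 2 := by
    calc (2 : ℝ) ^ b ≤ 2 ^ (1 : ℝ) := Real.rpow_le_rpow_of_exponent_le (by norm_num) hb1
      _ = 2 := Real.rpow_one _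
  have h2 : 0 < N ^ b := Real.rpow_pos_of_pos hN _
  have h3 : 0 < S ^ b := Real.rpow_pos_of_pos hS _
  have h4 : (2 : ℝ) ^ b * N ^ b * (S / S ^ b) = 2 ^ b * (S * (N ^ b / S ^ b)) := by
    field_simp
  have h5 : 2 * S * (N ^ b / S ^ b) = 2 * (S * (N ^ b / S ^ b)) := by ring
  rw [h4, h5]
  exact mul_le_mul_of_nonneg_right h1 (by positivity)

variable {V : Type} [Fintype V]

/-- the bound for the number of non-star subtrees -/
lemma nonstars_real {G : SimpleGraph V} (hG : G.IsTree) (k : ℕ) (hk : 4 ≤ k)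
    (hn : 2 ≤ Fintype.card V) :
    ((nonstars G k).card : ℝ) ≤ 4 * (k : ℝ) ^ (k - 3) * mom G (k - 1) *
      ((Fintype.card V : ℝ) / mom G (k - 1)) ^ (1 / ((k : ℝ) - 2) ^ 2) := by
  obtain ⟨r⟩ := hG.connected.nonempty
  obtain ⟨m, rfl⟩ : ∃ m, k = m + 2 := ⟨k - 2, by omega⟩
  have hm : 2 ≤ m := by omega
  have hm' : (2 : ℝ) ≤ m := by exact_mod_cast hm
  have e1 : m + 2 - 3 = m - 1 := by omega
  have e2 : m + 2 - 1 = m + 1 := by omega
  have e3 : ((m + 2 : ℕ) : ℝ) - 2 = m := by push_cast; ring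
  rw [e1, e2, e3]
  have hNpos : (0 : ℝ) < Fintype.card V := by
    have : (2 : ℝ) ≤ Fintype.card V := by exact_mod_cast hn
    linarith
  have hNS : (Fintype.card V : ℝ) ≤ mom G (m + 1) := card_le_mom hG hn _
  have hSpos : 0 < mom G (m + 1) := lt_of_lt_of_le hNpos hNS
  have h0 : ((nonstars G (m + 2)).card : ℝ) ≤
      ∑ v : V, ∑ u ∈ univ.filter (fun u => G.Adj v u ∧ dg G u ≤ dg G v),
      ((m + 2 : ℕ) : ℝ) ^ (m - 1) * ((dg G u : ℝ) * (dg G v : ℝ) ^ (m - 1)) := by
    have := nonstars_le G (m + 2) (by omega)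
    rw [e1] at this
    have h1 : ((nonstars G (m + 2)).card : ℝ) ≤
      ((∑ v : V, ∑ u ∈ univ.filter (fun u => G.Adj v u ∧ dg G u ≤ dg G v),
      dg G u * ((m + 2) * dg G v) ^ (m - 1) : ℕ) : ℝ) := by exact_mod_cast this
    refine h1.trans (le_of_eq ?_)
    push_cast
    refine Finset.sum_congr rfl fun v _ => Finset.sum_congr rfl fun u _ => ?_
    rw [mul_pow]
    ring
  have h2 : ∑ v : V, ∑ u ∈ univ.filter (fun u => G.Adj v u ∧ dg G u ≤ dg G v),
      ((m + 2 : ℕ) : ℝ) ^ (m - 1) * ((dg G u : ℝ) * (dg G v : ℝ) ^ (m - 1)) ≤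
      ∑ p ∈ prs G r, ((m + 2 : ℕ) : ℝ) ^ (m - 1) *
        ((dg G p.2 : ℝ) * (dg G p.1 : ℝ) ^ (m - 1)) +
      ∑ p ∈ (prs G r).filter (fun p => dg G p.1 ≤ dg G p.2),
        ((m + 2 : ℕ) : ℝ) ^ (m - 1) * ((dg G p.1 : ℝ) * (dg G p.2 : ℝ) ^ (m - 1)) := by
    have h2a := sum_nbrs hG r (fun v u => ((m + 2 : ℕ) : ℝ) ^ (m - 1) *
      ((dg G u : ℝ) * (dg G v : ℝ) ^ (m - 1))) (fun _ _ => by positivity)
      (fun v u => dg G u ≤ dg G v)
    convert h2a
  have h3 : ∑ p ∈ prs G r, ((m + 2 : ℕ) : ℝ) ^ (m - 1) *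
      ((dg G p.2 : ℝ) * (dg G p.1 : ℝ) ^ (m - 1)) ≤ ((m + 2 : ℕ) : ℝ) ^ (m - 1) *
      (2 * mom G (m + 1) * ((Fintype.card V : ℝ) / mom G (m + 1)) ^ (1 / (m : ℝ) ^ 2)) := by
    rw [← Finset.mul_sum]
    refine mul_le_mul_of_nonneg_left ?_ (by positivity)
    refine (down_bound hG hn r m hm).trans ?_
    refine interp_form _ _ _ hNpos hSpos ?_
    rw [div_le_one (by positivity)]
    nlinarith
  have h4 : ∑ p ∈ (prs G r).filter (fun p => dg G p.1 ≤ dg G p.2),
      ((m + 2 : ℕ) : ℝ) ^ (m - 1) * ((dg G p.1 : ℝ) * (dg G p.2 : ℝ) ^ (m - 1)) ≤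
      ((m + 2 : ℕ) : ℝ) ^ (m - 1) *
      (2 * mom G (m + 1) * ((Fintype.card V : ℝ) / mom G (m + 1)) ^ (1 / (m : ℝ) ^ 2)) := by
    rw [← Finset.mul_sum]
    refine mul_le_mul_of_nonneg_left ?_ (by positivity)
    calc ∑ p ∈ (prs G r).filter (fun p => dg G p.1 ≤ dg G p.2),
          (dg G p.1 : ℝ) * (dg G p.2 : ℝ) ^ (m - 1)
        ≤ ∑ p ∈ (prs G r).filter (fun p => dg G p.1 ≤ dg G p.2), (dg G p.2 : ℝ) ^ m := by
          refine Finset.sum_le_sum ?_
          intro p hp
          rw [mem_filter] at hp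
          have h5 : (dg G p.1 : ℝ) ≤ dg G p.2 := by exact_mod_cast hp.2
          calc (dg G p.1 : ℝ) * (dg G p.2 : ℝ) ^ (m - 1)
              ≤ (dg G p.2 : ℝ) * (dg G p.2 : ℝ) ^ (m - 1) :=
                mul_le_mul_of_nonneg_right h5 (by positivity)
            _ = (dg G p.2 : ℝ) ^ m := by
                rw [← pow_succ']; congr 1; omega
      _ ≤ ∑ p ∈ prs G r, (dg G p.2 : ℝ) ^ m :=
          Finset.sum_le_sum_of_subset_of_nonneg (Finset.filter_subset _ _)
            (fun _ _ _ => by positivity)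
      _ ≤ mom G m := sum_child hG r (fun v => (dg G v : ℝ) ^ m) (fun _ => by positivity)
      _ ≤ (2 * (Fintype.card V : ℝ)) ^ (1 / (m : ℝ)) * (mom G (m + 1)) ^ (1 - 1 / (m : ℝ)) := by
          refine (mom_interp hG hn m (m + 1) (by omega) (by omega) (by omega)).trans
            (le_of_eq ?_)
          have hm0 : (m : ℝ) ≠ 0 := by positivity
          have e4 : (((m + 1 : ℕ) : ℝ) - m) / (((m + 1 : ℕ) : ℝ) - 1) = 1 / (m : ℝ) := by
            push_cast
            rw [add_sub_cancel_left, add_sub_cancel_right]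
          have e5 : ((m : ℝ) - 1) / (((m + 1 : ℕ) : ℝ) - 1) = 1 - 1 / (m : ℝ) := by
            push_cast
            rw [add_sub_cancel_right, sub_div, div_self hm0]
          rw [e4, e5]
      _ ≤ 2 * mom G (m + 1) * ((Fintype.card V : ℝ) / mom G (m + 1)) ^ (1 / (m : ℝ)) := by
          refine interp_form _ _ _ hNpos hSpos ?_
          rw [div_le_one (by positivity)]
          linarith
      _ ≤ _ := by
          refine mul_le_mul_of_nonneg_left ?_ (by positivity)
          refine Real.rpow_le_rpow_of_exponent_ge (by positivity) ((div_le_one hSpos).2 hNS) ?_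
          rw [div_le_div_iff₀ (by positivity) (by positivity)]
          nlinarith
  refine h0.trans (h2.trans ((add_le_add h3 h4).trans (le_of_eq ?_)))
  ring

lemma conF_le_mom {G : SimpleGraph V} (hG : G.IsTree) (k : ℕ) (hk : 4 ≤ k)
    (hn : 2 ≤ Fintype.card V) :
    ((conF G k).card : ℝ) ≤ (1 + 4 * (k : ℝ) ^ (k - 3)) * mom G (k - 1) := by
  have hNpos : (0 : ℝ) < Fintype.card V := by
    have : (2 : ℝ) ≤ Fintype.card V := by exact_mod_cast hn
    linarith
  have hNS : (Fintype.card V : ℝ) ≤ mom G (k - 1) := card_le_mom hG hn _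
  have hSpos : 0 < mom G (k - 1) := lt_of_lt_of_le hNpos hNS
  have h1 : ((starsF G k).card : ℝ) ≤ mom G (k - 1) := by
    have h2 := stars_le G k (by omega)
    have h3 : ∑ v, (dg G v).choose (k - 1) ≤ ∑ v, (dg G v) ^ (k - 1) :=
      Finset.sum_le_sum fun v _ => Nat.choose_le_pow _ _
    rw [mom]
    exact_mod_cast h2.trans h3
  have h4 := nonstars_real hG k hk hn
  have h5 : ((Fintype.card V : ℝ) / mom G (k - 1)) ^ (1 / ((k : ℝ) - 2) ^ 2) ≤ 1 :=
    Real.rpow_le_one (by positivity) ((div_le_one hSpos).2 hNS) (by positivity)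
  have h6 : 4 * (k : ℝ) ^ (k - 3) * mom G (k - 1) *
      ((Fintype.card V : ℝ) / mom G (k - 1)) ^ (1 / ((k : ℝ) - 2) ^ 2) ≤
      4 * (k : ℝ) ^ (k - 3) * mom G (k - 1) * 1 :=
    mul_le_mul_of_nonneg_left h5 (by positivity)
  have h7 : ((conF G k).card : ℝ) = (starsF G k).card + (nonstars G k).card := by
    exact_mod_cast conF_card G k
  rw [h7]
  linarith

/-- the number of vertices of a tree of bounded diameter -/
lemma card_le_level {G : SimpleGraph V} (hG : G.IsTree) (hn : 2 ≤ Fintype.card V) (j : ℕ)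
    (r : V) (h : ℕ) (hh : ∀ v, G.dist r v ≤ h) :
    (Fintype.card V : ℝ) ≤ ((h : ℝ) + 1) *
      (mom G (j + 1)) ^ (1 - ((j : ℝ) / (j + 1)) ^ h) := by
  have hNpos : (0 : ℝ) < Fintype.card V := by
    have : (2 : ℝ) ≤ Fintype.card V := by exact_mod_cast hn
    linarith
  have hN1 : (1 : ℝ) ≤ Fintype.card V := by
    have : (2 : ℝ) ≤ Fintype.card V := by exact_mod_cast hn
    linarith
  have hNS : (Fintype.card V : ℝ) ≤ mom G (j + 1) := card_le_mom hG hn _
  have hS1 : 1 ≤ mom G (j + 1) := hN1.trans hNS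
  have hSpos : 0 < mom G (j + 1) := lt_of_lt_of_le hNpos hNS
  have hj : (0 : ℝ) ≤ (j : ℝ) / (j + 1) := by positivity
  have hj1 : (j : ℝ) / (j + 1) ≤ 1 := by
    rw [div_le_one (by positivity)]
    linarith
  have hlev : ∀ i : ℕ, ((univ.filter (fun v => G.dist r v = i)).card : ℝ) ≤
      (mom G (j + 1)) ^ (1 - ((j : ℝ) / (j + 1)) ^ i) := by
    intro i
    induction i with
    | zero =>
      have : (univ.filter (fun v => G.dist r v = 0)) = {r} := by
        ext v
        simp only [mem_filter, mem_univ, true_and, mem_singleton]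
        rw [(hG.connected r v).dist_eq_zero_iff]
        exact eq_comm
      rw [this]
      simp
    | succ i ih =>
      have hsub : (univ.filter (fun v => G.dist r v = i + 1)) ⊆
          (univ.filter (fun v => G.dist r v = i)).biUnion (fun v => nb G v) := by
        intro u hu
        rw [mem_filter] at hu
        have hpos : 0 < G.dist r u := by omega
        obtain ⟨p, hp, hpl⟩ := (hG.connected r u).exists_path_of_dist
        have hnil : ¬ p.Nil := by
          rw [← Walk.length_eq_zero_iff]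
          omega
        rw [mem_biUnion]
        refine ⟨p.penultimate, ?_, ?_⟩
        · rw [mem_filter]
          refine ⟨mem_univ _, ?_⟩
          have h1 : G.dist r p.penultimate ≤ i := by
            have := G.dist_le p.dropLast
            rw [Walk.length_dropLast] at this
            omega
          have h2 : G.dist r u ≤ G.dist r p.penultimate + 1 := by
            have h3 := (hG.connected).dist_triangle (u := r) (v := p.penultimate) (w := u)
            have h4 : G.dist p.penultimate u = 1 := SimpleGraph.dist_eq_one_iff_adj.2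
              (p.adj_penultimate hnil)
            omega
          omega
        · rw [nb, mem_filter]
          exact ⟨mem_univ _, p.adj_penultimate hnil⟩
      have h1 : ((univ.filter (fun v => G.dist r v = i + 1)).card : ℝ) ≤
          ∑ v ∈ univ.filter (fun v => G.dist r v = i), (dg G v : ℝ) := by
        have := (Finset.card_le_card hsub).trans Finset.card_biUnion_le
        exact_mod_cast this
      set A : ℝ := ((univ.filter (fun v => G.dist r v = i)).card : ℝ) with hA
      have hAnn : 0 ≤ A := by positivity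
      rcases hAnn.eq_or_lt with hA0 | hApos
      · have hemp : univ.filter (fun v => G.dist r v = i) = ∅ := by
          rw [← Finset.card_eq_zero]
          rw [hA] at hA0
          exact_mod_cast hA0.symm
        rw [hemp, Finset.sum_empty] at h1
        exact h1.trans (by positivity)
      have h2 := holder3 (univ.filter (fun v => G.dist r v = i))
        (fun v => (dg G v : ℝ) ^ (j + 1)) (fun _ => (1 : ℝ)) (fun _ => (0 : ℝ))
        (fun _ _ => by positivity) (fun _ _ => by positivity) (fun _ _ => le_rfl)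
        (1 / ((j : ℝ) + 1)) ((j : ℝ) / (j + 1)) 0 (by positivity) hj le_rfl
        (by field_simp; ring) (mom G (j + 1)) A 1 hSpos hApos one_pos
        (by
          rw [mom]
          exact Finset.sum_le_sum_of_subset_of_nonneg (Finset.filter_subset _ _)
            (fun _ _ _ => by positivity))
        (by simp [hA]) (by simp)
      simp only [Real.rpow_zero, mul_one, Real.one_rpow] at h2
      have h3 : ∑ v ∈ univ.filter (fun v => G.dist r v = i), (dg G v : ℝ) =
          ∑ v ∈ univ.filter (fun v => G.dist r v = i),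
            ((dg G v : ℝ) ^ (j + 1)) ^ (1 / ((j : ℝ) + 1)) := by
        refine Finset.sum_congr rfl ?_
        intro v _
        rw [← Real.rpow_natCast, ← Real.rpow_mul (by positivity)]
        have : ((j + 1 : ℕ) : ℝ) * (1 / ((j : ℝ) + 1)) = 1 := by push_cast; field_simp
        rw [this, Real.rpow_one]
      rw [h3] at h1
      refine h1.trans (h2.trans ?_)
      have h4 : A ^ ((j : ℝ) / (j + 1)) ≤
          ((mom G (j + 1)) ^ (1 - ((j : ℝ) / (j + 1)) ^ i)) ^ ((j : ℝ) / (j + 1)) :=
        Real.rpow_le_rpow hAnn ih hj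
      calc (mom G (j + 1)) ^ (1 / ((j : ℝ) + 1)) * A ^ ((j : ℝ) / (j + 1))
          ≤ (mom G (j + 1)) ^ (1 / ((j : ℝ) + 1)) *
            ((mom G (j + 1)) ^ (1 - ((j : ℝ) / (j + 1)) ^ i)) ^ ((j : ℝ) / (j + 1)) :=
            mul_le_mul_of_nonneg_left h4 (by positivity)
        _ = (mom G (j + 1)) ^ (1 - ((j : ℝ) / (j + 1)) ^ (i + 1)) := by
            rw [← Real.rpow_mul hSpos.le, ← Real.rpow_add hSpos]
            congr 1
            rw [pow_succ]
            have : 1 / ((j : ℝ) + 1) = 1 - (j : ℝ) / (j + 1) := by field_simp; ring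
            rw [this]
            ring
  have hcover : (Fintype.card V : ℝ) ≤ ∑ i ∈ range (h + 1),
      ((univ.filter (fun v => G.dist r v = i)).card : ℝ) := by
    have h1 : (univ : Finset V) ⊆ (range (h + 1)).biUnion
        (fun i => univ.filter (fun v => G.dist r v = i)) := by
      intro v _
      rw [mem_biUnion]
      exact ⟨G.dist r v, by rw [mem_range]; have := hh v; omega, by simp⟩
    have h2 := (Finset.card_le_card h1).trans Finset.card_biUnion_le
    rw [Finset.card_univ] at h2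
    exact_mod_cast h2
  refine hcover.trans ?_
  calc ∑ i ∈ range (h + 1), ((univ.filter (fun v => G.dist r v = i)).card : ℝ)
      ≤ ∑ _i ∈ range (h + 1), (mom G (j + 1)) ^ (1 - ((j : ℝ) / (j + 1)) ^ h) := by
        refine Finset.sum_le_sum ?_
        intro i hi
        rw [mem_range] at hi
        refine (hlev i).trans ?_
        refine Real.rpow_le_rpow_of_exponent_le hS1 ?_
        have := pow_le_pow_of_le_one hj hj1 (show i ≤ h by omega)
        linarith
    _ = _ := by simp

end Pool.Agent.Helper49.PS
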